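import Pool.Agent.H126R3.SumQ

/-!
# Euler products over a family of places: the analytic core
-/

set_option autoImplicit false
set_option linter.unusedSectionVars false

namespace Q282GH

open Finset
open Pool.Agent.H126R3 (Qc Qc_pos Qc_rpow summable_Q)

lemma Qc_two (c : Nat.Primes × ℕ) : 2 ≤ Qc c := by
  have h1 := c.1.2.two_le
  calc 2 ≤ (c.1 : ℕ) := h1
    _ = (c.1 : ℕ) ^ 1 := (pow_one _).symm
    _ ≤ (c.1 : ℕ) ^ (c.2 + 1) := Nat.pow_le_pow_right c.1.2.pos (by omega)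

lemma cpow_norm (c : Nat.Primes × ℕ) (s : ℂ) : ‖(Qc c : ℂ) ^ (-s)‖ = (Qc c : ℝ) ^ (-s.re) := by
  rw [Complex.norm_natCast_cpow_of_pos (Qc_pos c), Complex.neg_re]

lemma cpow_diff (c : Nat.Primes × ℕ) (s : ℂ) : DifferentiableAt ℂ (fun s : ℂ => (Qc c : ℂ) ^ (-s)) s := by
  have hq : (Qc c : ℂ) ≠ 0 := by exact_mod_cast (Qc_pos c).ne'
  exact (differentiableAt_id.neg).const_cpow (Or.inl hq)

section

variable {Y : Type} {pk : Y → Nat.Primes × ℕ} {N m B : ℕ} {C : ℝ}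

theorem summable_y (hC : 0 ≤ C) (hfin : ∀ c, Finite {y // pk y = c})
    (hcard : ∀ c, (Nat.card {y // pk y = c} : ℝ) ≤ C * (Qc c : ℝ) ^ N) (a : ℝ) (ha : (N : ℝ) + 1 < a) :
    Summable (fun y : Y => (Qc (pk y) : ℝ) ^ (-a)) := by
  letI := fun c => Fintype.ofFinite {y // pk y = c}
  rw [← (Equiv.sigmaFiberEquiv pk).summable_iff]
  have h0 : ∀ w : (Σ c, {y : Y // pk y = c}),
      ((fun y : Y => (Qc (pk y) : ℝ) ^ (-a)) ∘ (Equiv.sigmaFiberEquiv pk)) w = (Qc w.1 : ℝ) ^ (-a) := by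
    intro w
    rcases w with ⟨c, y⟩
    change (Qc (pk y.1) : ℝ) ^ (-a) = _
    rw [y.2]
  rw [summable_congr h0, summable_sigma_of_nonneg (fun _ => by positivity)]
  refine ⟨fun c => (hasSum_fintype _).summable, ?_⟩
  have h1 := (summable_Q (a - N) (by linarith) 0 (by push_cast; linarith)).mul_left C
  refine Summable.of_nonneg_of_le (fun c => tsum_nonneg fun _ => by positivity) (fun c => ?_) h1
  rw [if_pos (Nat.zero_le _), tsum_fintype]
  change ∑ _b : {y : Y // pk y = c}, (Qc c : ℝ) ^ (-a) ≤ _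
  rw [Finset.sum_const, Finset.card_univ, nsmul_eq_mul, ← Nat.card_eq_fintype_card]
  have h2 := hcard c
  have hQ : (0 : ℝ) < Qc c := by exact_mod_cast Qc_pos c
  calc (Nat.card {y : Y // pk y = c} : ℝ) * (Qc c : ℝ) ^ (-a) ≤ (C * (Qc c : ℝ) ^ N) * (Qc c : ℝ) ^ (-a) :=
        mul_le_mul_of_nonneg_right h2 (by positivity)
    _ = C * (Qc c : ℝ) ^ (-(a - N)) := by
        rw [mul_assoc, ← Real.rpow_natCast, ← Real.rpow_add hQ]
        congr 2
        ring

open Classical in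
/-- the sum of the eigenvalues -/
noncomputable def aa (G : Y → Prop) (α : Y → Fin B → ℂ) (y : Y) : ℂ := if G y then ∑ i, α y i else 0

open Classical in
/-- the logarithm of the local factor without its main term -/
noncomputable def rho (pk : Y → Nat.Primes × ℕ) (G : Y → Prop) (α : Y → Fin B → ℂ) (y : Y) (s : ℂ) : ℂ :=
  if G y then ∑ i, (-Complex.log (1 - α y i * (Qc (pk y) : ℂ) ^ (-s)) - α y i * (Qc (pk y) : ℂ) ^ (-s)) else 0

variable {G : Y → Prop} {α : Y → Fin B → ℂ}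

lemma z_norm (hα : ∀ y, G y → ∀ i, ‖α y i‖ ≤ (Qc (pk y) : ℝ) ^ m) (y : Y) (hy : G y) (i : Fin B) (s : ℂ) :
    ‖α y i * (Qc (pk y) : ℂ) ^ (-s)‖ ≤ (Qc (pk y) : ℝ) ^ ((m : ℝ) - s.re) := by
  have hQ : (0 : ℝ) < Qc (pk y) := by exact_mod_cast Qc_pos _
  rw [norm_mul, cpow_norm]
  calc ‖α y i‖ * (Qc (pk y) : ℝ) ^ (-s.re) ≤ (Qc (pk y) : ℝ) ^ m * (Qc (pk y) : ℝ) ^ (-s.re) :=
        mul_le_mul_of_nonneg_right (hα y hy i) (by positivity)
    _ = _ := by
        rw [← Real.rpow_natCast, ← Real.rpow_add hQ]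
        rfl

lemma z_small (hα : ∀ y, G y → ∀ i, ‖α y i‖ ≤ (Qc (pk y) : ℝ) ^ m) (y : Y) (hy : G y) (i : Fin B) (s : ℂ) (hs : (m : ℝ) + 1 ≤ s.re) :
    ‖α y i * (Qc (pk y) : ℂ) ^ (-s)‖ ≤ 1 / 2 := by
  refine (z_norm hα y hy i s).trans ?_
  have hQ2 : (2 : ℝ) ≤ Qc (pk y) := by exact_mod_cast Qc_two _
  calc (Qc (pk y) : ℝ) ^ ((m : ℝ) - s.re) ≤ (Qc (pk y) : ℝ) ^ (-1 : ℝ) :=
        Real.rpow_le_rpow_of_exponent_le (by linarith) (by linarith)
    _ = (Qc (pk y) : ℝ)⁻¹ := Real.rpow_neg_one _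
    _ ≤ 1 / 2 := by
        rw [inv_le_comm₀ (by linarith) (by norm_num)]
        linarith

lemma log_near (z : ℂ) (hz : ‖z‖ ≤ 1 / 2) : ‖-Complex.log (1 - z) - z‖ ≤ ‖z‖ ^ 2 := by
  have h1 := Complex.norm_log_one_add_sub_self_le (z := -z) (by rw [norm_neg]; linarith)
  rw [norm_neg] at h1
  have h2 : -Complex.log (1 - z) - z = -(Complex.log (1 + -z) - -z) := by
    rw [← sub_eq_add_neg 1 z]
    ring
  rw [h2, norm_neg]
  refine h1.trans ?_
  have h3 : (1 - ‖z‖)⁻¹ ≤ 2 := by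
    rw [inv_le_comm₀ (by linarith) (by norm_num)]
    linarith
  have h4 := sq_nonneg ‖z‖
  nlinarith

lemma rho_norm (hα : ∀ y, G y → ∀ i, ‖α y i‖ ≤ (Qc (pk y) : ℝ) ^ m) (y : Y) (s : ℂ) (hs : (m : ℝ) + 1 ≤ s.re) :
    ‖rho pk G α y s‖ ≤ B * (Qc (pk y) : ℝ) ^ (-(2 * (s.re - m))) := by
  classical
  have hQ : (0 : ℝ) < Qc (pk y) := by exact_mod_cast Qc_pos _
  unfold rho
  split_ifs with h
  · refine (norm_sum_le _ _).trans ?_
    have h1 : ∀ i ∈ (univ : Finset (Fin B)), ‖-Complex.log (1 - α y i * (Qc (pk y) : ℂ) ^ (-s)) - α y i * (Qc (pk y) : ℂ) ^ (-s)‖ ≤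
        (Qc (pk y) : ℝ) ^ (-(2 * (s.re - m))) := by
      intro i _
      refine (log_near _ (z_small hα y h i s hs)).trans ?_
      refine (pow_le_pow_left₀ (norm_nonneg _) (z_norm hα y h i s) 2).trans (le_of_eq ?_)
      rw [← Real.rpow_natCast, ← Real.rpow_mul hQ.le]
      congr 1
      push_cast
      ring
    refine (sum_le_sum h1).trans (le_of_eq ?_)
    rw [sum_const, card_univ, Fintype.card_fin, nsmul_eq_mul]
  · rw [norm_zero]
    positivity

lemma rho_diff (hα : ∀ y, G y → ∀ i, ‖α y i‖ ≤ (Qc (pk y) : ℝ) ^ m) (y : Y) (s : ℂ) (hs : (m : ℝ) + 1 ≤ s.re) :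
    DifferentiableAt ℂ (rho pk G α y) s := by
  classical
  by_cases h : G y
  · have h1 : rho pk G α y = fun s => ∑ i, (-Complex.log (1 - α y i * (Qc (pk y) : ℂ) ^ (-s)) - α y i * (Qc (pk y) : ℂ) ^ (-s)) := by
      funext s
      unfold rho
      rw [if_pos h]
    rw [h1]
    refine DifferentiableAt.fun_sum fun i _ => ?_
    have h2 : DifferentiableAt ℂ (fun s : ℂ => α y i * (Qc (pk y) : ℂ) ^ (-s)) s := (cpow_diff _ s).const_mul _
    refine ((((differentiableAt_const 1).sub h2).clog ?_).neg).sub h2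
    have h3 := z_small hα y h i s hs
    have h4 := Complex.mem_slitPlane_of_norm_lt_one (z := -(α y i * (Qc (pk y) : ℂ) ^ (-s))) (by rw [norm_neg]; linarith)
    rw [← sub_eq_add_neg] at h4
    exact h4
  · have h1 : rho pk G α y = fun _ => 0 := by
      funext s
      unfold rho
      rw [if_neg h]
    rw [h1]
    exact differentiableAt_const 0

lemma factor_exp (hα : ∀ y, G y → ∀ i, ‖α y i‖ ≤ (Qc (pk y) : ℝ) ^ m) (y : Y) (s : ℂ) (hs : (m : ℝ) + 1 ≤ s.re) (hy : G y) :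
    Complex.exp (rho pk G α y s + aa G α y * (Qc (pk y) : ℂ) ^ (-s)) = ∏ i, (1 - α y i * (Qc (pk y) : ℂ) ^ (-s))⁻¹ := by
  classical
  unfold rho aa
  rw [if_pos hy, if_pos hy, sum_mul, ← sum_add_distrib, Complex.exp_sum]
  refine prod_congr rfl fun i _ => ?_
  rw [sub_add_cancel, Complex.exp_neg, Complex.exp_log]
  intro h0
  have hz := z_small hα y hy i s hs
  have : α y i * (Qc (pk y) : ℂ) ^ (-s) = 1 := by
    rw [sub_eq_zero] at h0
    exact h0.symm
  rw [this, norm_one] at hz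
  norm_num at hz

/-- the sums over the places with a given residue field -/
noncomputable def Ac (pk : Y → Nat.Primes × ℕ) (hfin : ∀ c, Finite {y // pk y = c}) (G : Y → Prop) (α : Y → Fin B → ℂ)
    (c : Nat.Primes × ℕ) : ℂ :=
  letI := Fintype.ofFinite {y // pk y = c}
  ∑ y : {y // pk y = c}, aa G α y.1

lemma aa_norm (hα : ∀ y, G y → ∀ i, ‖α y i‖ ≤ (Qc (pk y) : ℝ) ^ m) (y : Y) : ‖aa G α y‖ ≤ B * (Qc (pk y) : ℝ) ^ m := by
  classical
  unfold aa
  split_ifs with h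
  · refine (norm_sum_le _ _).trans ((sum_le_sum fun i _ => hα y h i).trans (le_of_eq ?_))
    rw [sum_const, card_univ, Fintype.card_fin, nsmul_eq_mul]
  · rw [norm_zero]
    positivity

lemma Ac_norm (hC : 0 ≤ C) (hfin : ∀ c, Finite {y // pk y = c})
    (hcard : ∀ c, (Nat.card {y // pk y = c} : ℝ) ≤ C * (Qc c : ℝ) ^ N)
    (hα : ∀ y, G y → ∀ i, ‖α y i‖ ≤ (Qc (pk y) : ℝ) ^ m) (c : Nat.Primes × ℕ) :
    ‖Ac pk hfin G α c‖ ≤ B * C * (Qc c : ℝ) ^ (N + m) := by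
  letI := Fintype.ofFinite {y // pk y = c}
  unfold Ac
  refine (norm_sum_le _ _).trans ?_
  have h1 : ∀ y ∈ (univ : Finset {y // pk y = c}), ‖aa G α y.1‖ ≤ B * (Qc c : ℝ) ^ m := by
    intro y _
    have := aa_norm hα y.1
    rw [y.2] at this
    exact this
  refine (sum_le_sum h1).trans ?_
  rw [sum_const, card_univ, nsmul_eq_mul, ← Nat.card_eq_fintype_card]
  calc (Nat.card {y // pk y = c} : ℝ) * (B * (Qc c : ℝ) ^ m) ≤ (C * (Qc c : ℝ) ^ N) * (B * (Qc c : ℝ) ^ m) :=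
        mul_le_mul_of_nonneg_right (hcard c) (by positivity)
    _ = _ := by ring

theorem hasSum_ay (hC : 0 ≤ C) (hfin : ∀ c, Finite {y // pk y = c})
    (hcard : ∀ c, (Nat.card {y // pk y = c} : ℝ) ≤ C * (Qc c : ℝ) ^ N)
    (hα : ∀ y, G y → ∀ i, ‖α y i‖ ≤ (Qc (pk y) : ℝ) ^ m) (s : ℂ) (hs : (m : ℝ) + N + 1 < s.re) :
    HasSum (fun y : Y => aa G α y * (Qc (pk y) : ℂ) ^ (-s)) (∑' c : Nat.Primes × ℕ, Ac pk hfin G α c * (Qc c : ℂ) ^ (-s)) := by
  classical
  letI := fun c => Fintype.ofFinite {y // pk y = c}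
  have hsm : Summable (fun y : Y => aa G α y * (Qc (pk y) : ℂ) ^ (-s)) := by
    refine Summable.of_norm_bounded ((summable_y hC hfin hcard (s.re - m) (by linarith)).mul_left (B : ℝ)) (fun y => ?_)
    have hQ : (0 : ℝ) < Qc (pk y) := by exact_mod_cast Qc_pos _
    rw [norm_mul, cpow_norm]
    calc ‖aa G α y‖ * (Qc (pk y) : ℝ) ^ (-s.re) ≤ (B * (Qc (pk y) : ℝ) ^ m) * (Qc (pk y) : ℝ) ^ (-s.re) :=
          mul_le_mul_of_nonneg_right (aa_norm hα y) (by positivity)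
      _ = _ := by
          rw [mul_assoc, ← Real.rpow_natCast, ← Real.rpow_add hQ]
          congr 2
          ring
  have h3 : ∑' y : Y, aa G α y * (Qc (pk y) : ℂ) ^ (-s) = ∑' c : Nat.Primes × ℕ, Ac pk hfin G α c * (Qc c : ℂ) ^ (-s) := by
    rw [← (Equiv.sigmaFiberEquiv pk).tsum_eq, Summable.tsum_sigma]
    · apply tsum_congr
      intro c
      have h4 : ∀ y : {y // pk y = c}, aa G α ((Equiv.sigmaFiberEquiv pk) ⟨c, y⟩) *
          (Qc (pk ((Equiv.sigmaFiberEquiv pk) ⟨c, y⟩)) : ℂ) ^ (-s) = aa G α y.1 * (Qc c : ℂ) ^ (-s) := by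
        intro y
        change aa G α y.1 * (Qc (pk y.1) : ℂ) ^ (-s) = _
        rw [y.2]
      rw [tsum_congr h4, tsum_fintype, ← Finset.sum_mul]
      rfl
    · exact (Equiv.sigmaFiberEquiv pk).summable_iff.2 hsm
  rw [← h3]
  exact hsm.hasSum

/-- the sums without their main term -/
noncomputable def Am (pk : Y → Nat.Primes × ℕ) (hfin : ∀ c, Finite {y // pk y = c}) (G : Y → Prop) (α : Y → Fin B → ℂ)
    (N m : ℕ) (M : Nat.Primes → ℝ) (c : Nat.Primes × ℕ) : ℂ :=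
  Ac pk hfin G α c - if c.2 = 0 then (M c.1 : ℂ) * (Qc c : ℂ) ^ (N + m) else 0

theorem summ_ind (K a : ℝ) (hK : 0 ≤ K) (ha : a < -1) :
    Summable (fun c : Nat.Primes × ℕ => (K * ((c.1 : ℕ) : ℝ) ^ a) * (if c.2 = 0 then (1 : ℝ) else 0)) := by
  have g1 : Summable (fun p : Nat.Primes => K * ((p : ℕ) : ℝ) ^ a) := (Nat.Primes.summable_rpow.2 ha).mul_left K
  have g2 : Summable (fun k : ℕ => if k = 0 then (1 : ℝ) else 0) := (hasSum_ite_eq 0 (1 : ℝ)).summable
  exact g1.mul_of_nonneg g2 (fun p => by positivity) (fun k => by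
    change (0 : ℝ) ≤ if k = 0 then (1 : ℝ) else 0
    split_ifs <;> norm_num)

theorem sumAm (hC : 0 ≤ C) (hfin : ∀ c, Finite {y // pk y = c})
    (hcard : ∀ c, (Nat.card {y // pk y = c} : ℝ) ≤ C * (Qc c : ℝ) ^ N)
    (hα : ∀ y, G y → ∀ i, ‖α y i‖ ≤ (Qc (pk y) : ℝ) ^ m) (M : Nat.Primes → ℝ) (K : ℝ) (hK : 0 ≤ K)
    (hM : ∀ p : Nat.Primes, ‖Ac pk hfin G α (p, 0) - (M p : ℂ) * ((p : ℕ) : ℂ) ^ (N + m)‖ ≤ K * ((p : ℕ) : ℝ) ^ ((N : ℝ) + m - 1 / 2))
    (σ₁ : ℝ) (hσ : (m : ℝ) + N + 1 / 2 < σ₁) :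
    Summable (fun c => ‖Am pk hfin G α N m M c‖ * (Qc c : ℝ) ^ (-σ₁)) := by
  have s0 := summ_ind K ((N : ℝ) + m - 1 / 2 - σ₁) hK (by linarith)
  have s2 := (summable_Q (σ₁ - N - m) (by linarith) 1 (by push_cast; linarith)).mul_left (B * C)
  refine Summable.of_nonneg_of_le (fun c => mul_nonneg (norm_nonneg _) (Real.rpow_nonneg (Nat.cast_nonneg _) _)) (fun c => ?_) (s0.add s2)
  have hp0 : (0 : ℝ) < ((c.1 : ℕ) : ℝ) := by exact_mod_cast c.1.2.pos
  have hQ0 : (0 : ℝ) < Qc c := by exact_mod_cast Qc_pos c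
  obtain ⟨p, k⟩ := c
  change ‖Am pk hfin G α N m M (p, k)‖ * (Qc (p, k) : ℝ) ^ (-σ₁) ≤
    (K * ((p : ℕ) : ℝ) ^ ((N : ℝ) + m - 1 / 2 - σ₁)) * (if k = 0 then (1 : ℝ) else 0) +
    B * C * (if 1 ≤ k then (Qc (p, k) : ℝ) ^ (-(σ₁ - N - m)) else 0)
  change (0 : ℝ) < ((p : ℕ) : ℝ) at hp0
  by_cases hk : k = 0
  · subst hk
    have hQp : Qc (p, 0) = (p : ℕ) := by
      rw [Qc]
      simp
    have h1 : Am pk hfin G α N m M (p, 0) = Ac pk hfin G α (p, 0) - (M p : ℂ) * ((p : ℕ) : ℂ) ^ (N + m) := by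
      unfold Am
      rw [if_pos rfl, hQp]
    rw [h1, if_pos rfl, if_neg (by omega), mul_zero, add_zero, mul_one, hQp]
    calc _ ≤ (K * ((p : ℕ) : ℝ) ^ ((N : ℝ) + m - 1 / 2)) * ((p : ℕ) : ℝ) ^ (-σ₁) :=
          mul_le_mul_of_nonneg_right (hM p) (by positivity)
      _ = _ := by
          rw [mul_assoc, ← Real.rpow_add hp0]
          congr 2
  · have h1 : Am pk hfin G α N m M (p, k) = Ac pk hfin G α (p, k) := by
      unfold Am
      rw [if_neg hk, sub_zero]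
    rw [h1, if_neg hk, if_pos (by omega), mul_zero, zero_add]
    calc _ ≤ (B * C * (Qc (p, k) : ℝ) ^ (N + m)) * (Qc (p, k) : ℝ) ^ (-σ₁) :=
          mul_le_mul_of_nonneg_right (Ac_norm hC hfin hcard hα _) (by positivity)
      _ = _ := by
          rw [mul_assoc, ← Real.rpow_natCast, ← Real.rpow_add hQ0]
          congr 2
          push_cast
          ring

lemma Am_term_norm (hfin : ∀ c, Finite {y // pk y = c}) (M : Nat.Primes → ℝ) (c : Nat.Primes × ℕ) (s : ℂ) :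
    ‖Am pk hfin G α N m M c * (Qc c : ℂ) ^ (-s)‖ = ‖Am pk hfin G α N m M c‖ * (Qc c : ℝ) ^ (-s.re) := by
  rw [norm_mul, cpow_norm]

/-- **The Euler product.** -/
theorem core (hC : 0 ≤ C) (hN : 1 ≤ N) (hfin : ∀ c, Finite {y // pk y = c})
    (hcard : ∀ c, (Nat.card {y // pk y = c} : ℝ) ≤ C * (Qc c : ℝ) ^ N)
    (hα : ∀ y, G y → ∀ i, ‖α y i‖ ≤ (Qc (pk y) : ℝ) ^ m) (M : Nat.Primes → ℝ) (M₀ : ℝ) (hM₀ : ∀ p, |M p| ≤ M₀) (K : ℝ) (hK : 0 ≤ K)
    (hM : ∀ p : Nat.Primes, ‖Ac pk hfin G α (p, 0) - (M p : ℂ) * ((p : ℕ) : ℂ) ^ (N + m)‖ ≤ K * ((p : ℕ) : ℝ) ^ ((N : ℝ) + m - 1 / 2)) :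
    ∃ E : ℂ → ℂ, (∀ s : ℂ, (m : ℝ) + N + 1 / 2 < s.re → AnalyticAt ℂ E s ∧ E s ≠ 0) ∧
      ∀ s : ℂ, (m : ℝ) + N + 1 < s.re → HasProd (fun y : {y : Y // G y} => ∏ i, (1 - α y.1 i * (Qc (pk y.1) : ℂ) ^ (-s))⁻¹)
        (E s * Complex.exp (∑' p : Nat.Primes, (M p : ℂ) * ((p : ℕ) : ℂ) ^ (-(s - (m + N : ℕ))))) := by
  classical
  have hN1 : (1 : ℝ) ≤ N := by exact_mod_cast hN
  obtain ⟨T₁, hT₁⟩ : ∃ T₁ : ℂ → ℂ, T₁ = fun s => ∑' y : Y, rho pk G α y s := ⟨_, rfl⟩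
  obtain ⟨T₂, hT₂⟩ : ∃ T₂ : ℂ → ℂ, T₂ = fun s => ∑' c : Nat.Primes × ℕ, Am pk hfin G α N m M c * (Qc c : ℂ) ^ (-s) := ⟨_, rfl⟩
  have hd1 : DifferentiableOn ℂ T₁ {s : ℂ | (m : ℝ) + N + 1 / 2 < s.re} := by
    intro s hs
    simp only [Set.mem_ofPred_eq] at hs
    obtain ⟨σ₁, h1, h3⟩ := exists_between hs
    have hopen : IsOpen {s : ℂ | σ₁ < s.re} := isOpen_lt continuous_const Complex.continuous_re
    have hd : DifferentiableOn ℂ T₁ {s : ℂ | σ₁ < s.re} := by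
      rw [hT₁]
      refine Complex.differentiableOn_tsum_of_summable_norm
        ((summable_y hC hfin hcard (2 * (σ₁ - m)) (by linarith)).mul_left (B : ℝ)) ?_ hopen ?_
      · intro y s hs
        simp only [Set.mem_ofPred_eq] at hs
        exact (rho_diff hα y s (by linarith)).differentiableWithinAt
      · intro y s hs
        simp only [Set.mem_ofPred_eq] at hs
        refine (rho_norm hα y s (by linarith)).trans ?_
        refine mul_le_mul_of_nonneg_left ?_ (by positivity)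
        exact Real.rpow_le_rpow_of_exponent_le (by exact_mod_cast Qc_pos _) (by linarith)
    exact (hd.differentiableAt (hopen.mem_nhds h3)).differentiableWithinAt
  have hd2 : DifferentiableOn ℂ T₂ {s : ℂ | (m : ℝ) + N + 1 / 2 < s.re} := by
    intro s hs
    simp only [Set.mem_ofPred_eq] at hs
    obtain ⟨σ₁, h1, h3⟩ := exists_between hs
    have hopen : IsOpen {s : ℂ | σ₁ < s.re} := isOpen_lt continuous_const Complex.continuous_re
    have hd : DifferentiableOn ℂ T₂ {s : ℂ | σ₁ < s.re} := by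
      rw [hT₂]
      refine Complex.differentiableOn_tsum_of_summable_norm (sumAm hC hfin hcard hα M K hK hM σ₁ h1) ?_ hopen ?_
      · intro c s _
        exact ((cpow_diff c s).const_mul _).differentiableWithinAt
      · intro c s hs
        simp only [Set.mem_ofPred_eq] at hs
        rw [Am_term_norm]
        refine mul_le_mul_of_nonneg_left ?_ (norm_nonneg _)
        exact Real.rpow_le_rpow_of_exponent_le (by exact_mod_cast Qc_pos c) (by linarith)
    exact (hd.differentiableAt (hopen.mem_nhds h3)).differentiableWithinAt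
  refine ⟨fun s => Complex.exp (T₁ s + T₂ s), fun s hs => ⟨?_, Complex.exp_ne_zero _⟩, ?_⟩
  · have hopen : IsOpen {s : ℂ | (m : ℝ) + N + 1 / 2 < s.re} := isOpen_lt continuous_const Complex.continuous_re
    have hd : DifferentiableOn ℂ (fun s => Complex.exp (T₁ s + T₂ s)) {s : ℂ | (m : ℝ) + N + 1 / 2 < s.re} := (hd1.add hd2).cexp
    exact hd.analyticAt (hopen.mem_nhds hs)
  · intro s hs
    have hm0 : (0 : ℝ) ≤ m := Nat.cast_nonneg _
    -- the sum over the places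
    have hrho : HasSum (fun y => rho pk G α y s) (T₁ s) := by
      rw [hT₁]
      refine Summable.hasSum ?_
      exact Summable.of_norm_bounded ((summable_y hC hfin hcard (2 * (s.re - m)) (by linarith)).mul_left (B : ℝ))
        fun y => rho_norm hα y s (by linarith)
    have hay := hasSum_ay hC hfin hcard hα s hs
    -- the main term
    have hsplit : ∑' c : Nat.Primes × ℕ, Ac pk hfin G α c * (Qc c : ℂ) ^ (-s) =
        T₂ s + ∑' p : Nat.Primes, (M p : ℂ) * ((p : ℕ) : ℂ) ^ (-(s - (m + N : ℕ))) := by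
      obtain ⟨F, hF⟩ : ∃ F : Nat.Primes × ℕ → ℂ, F = fun c =>
        if c.2 = 0 then (M c.1 : ℂ) * ((c.1 : ℕ) : ℂ) ^ (-(s - (m + N : ℕ))) else 0 := ⟨_, rfl⟩
      obtain ⟨g, hg⟩ : ∃ g : Nat.Primes → Nat.Primes × ℕ, g = fun p => (p, 0) := ⟨_, rfl⟩
      have hginj : Function.Injective g := by
        intro p q h
        rw [hg] at h
        exact congrArg Prod.fst h
      have hsupp : Function.support F ⊆ Set.range g := by
        intro c hc
        rw [Function.mem_support, hF] at hc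
        obtain ⟨p, k⟩ := c
        by_cases hk : k = 0
        · subst hk
          exact ⟨p, by rw [hg]⟩
        · exact absurd (if_neg hk) hc
      have hFg : ∀ p, F (g p) = (M p : ℂ) * ((p : ℕ) : ℂ) ^ (-(s - (m + N : ℕ))) := by
        intro p
        rw [hF, hg]
        simp
      have hz : ∀ p : Nat.Primes, ‖(M p : ℂ) * ((p : ℕ) : ℂ) ^ (-(s - (m + N : ℕ)))‖ ≤ M₀ * ((p : ℕ) : ℝ) ^ (-(s.re - m - N)) := by
        intro p
        rw [norm_mul, Complex.norm_natCast_cpow_of_pos p.2.pos, Complex.norm_real]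
        refine mul_le_mul (hM₀ p) (le_of_eq ?_) (by positivity) ((abs_nonneg _).trans (hM₀ p))
        congr 1
        rw [Complex.neg_re, Complex.sub_re, Complex.natCast_re]
        push_cast
        ring
      have hs1 : Summable (fun p => F (g p)) := by
        simp_rw [hFg]
        exact Summable.of_norm_bounded ((Nat.Primes.summable_rpow.2 (by linarith)).mul_left M₀) hz
      have hs2 : Summable F := (hginj.summable_iff (fun c hc => by
        by_contra h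
        exact hc (hsupp h))).1 hs1
      have h1 : ∑' c, F c = ∑' p : Nat.Primes, (M p : ℂ) * ((p : ℕ) : ℂ) ^ (-(s - (m + N : ℕ))) := by
        rw [← hginj.tsum_eq hsupp]
        exact tsum_congr hFg
      have hs3 : Summable (fun c => Am pk hfin G α N m M c * (Qc c : ℂ) ^ (-s)) := by
        refine Summable.of_norm_bounded (sumAm hC hfin hcard hα M K hK hM s.re (by linarith)) (fun c => ?_)
        rw [Am_term_norm]
      rw [← h1, hT₂]
      simp only
      rw [← hs3.tsum_add hs2]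
      refine tsum_congr fun c => ?_
      obtain ⟨p, k⟩ := c
      unfold Am
      rw [hF]
      by_cases hk : k = 0
      · subst hk
        have hp0 : ((p : ℕ) : ℂ) ≠ 0 := by exact_mod_cast p.2.pos.ne'
        have hQp : Qc (p, 0) = (p : ℕ) := by
          rw [Qc]
          simp
        simp only [if_true, hQp]
        have h5 : ((p : ℕ) : ℂ) ^ (-(s - (m + N : ℕ))) = ((p : ℕ) : ℂ) ^ (N + m) * ((p : ℕ) : ℂ) ^ (-s) := by
          rw [show -(s - ((m + N : ℕ) : ℂ)) = ((N + m : ℕ) : ℂ) + -s by push_cast; ring, Complex.cpow_add _ _ hp0, Complex.cpow_natCast]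
        rw [h5]
        ring
      · simp only [if_neg hk]
        ring
    rw [hsplit] at hay
    have h3 := (hrho.add hay).cexp
    have h4 : (Complex.exp ∘ fun y : Y => rho pk G α y s + aa G α y * (Qc (pk y) : ℂ) ^ (-s)) =
        Set.mulIndicator {y : Y | G y} fun y : Y => ∏ i, (1 - α y i * (Qc (pk y) : ℂ) ^ (-s))⁻¹ := by
      funext y
      simp only [Function.comp]
      by_cases h : G y
      · rw [Set.mulIndicator_of_mem (show y ∈ {y : Y | G y} from h), factor_exp hα y s (by linarith) h]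
      · rw [Set.mulIndicator_of_notMem (show y ∉ {y : Y | G y} from h)]
        unfold rho aa
        rw [if_neg h, if_neg h, zero_mul, add_zero, Complex.exp_zero]
    rw [h4] at h3
    have h5 := hasProd_subtype_iff_mulIndicator.2 h3
    have h6 : Complex.exp (T₁ s + (T₂ s + ∑' p : Nat.Primes, (M p : ℂ) * ((p : ℕ) : ℂ) ^ (-(s - (m + N : ℕ))))) =
        Complex.exp (T₁ s + T₂ s) * Complex.exp (∑' p : Nat.Primes, (M p : ℂ) * ((p : ℕ) : ℂ) ^ (-(s - (m + N : ℕ)))) := by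
      rw [← add_assoc, Complex.exp_add]
    rw [h6] at h5
    exact h5

end

end Q282GH
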