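import Pool.Agent.Q282.GH.Hom
import Pool.Agent.Q282.GH.An
import Pool.Agent.Q45.HF.ZetaK
import Mathlib.Algebra.MvPolynomial.SchwartzZippel

/-!
# The L-function of the generic member of a linear system
-/

set_option autoImplicit false
set_option linter.unusedSectionVars false

namespace Q282GH

open Finset MvPolynomial NumberField
open Pool.Agent.TH958.An (Pt Res qy pk qy_eq ptOf mem_ptOf)
open Pool.Agent.H126R3 (Qc Qc_pos)
open Pool.Agent.H921R2.TatePole (R hc R_eq_hc R_le)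

/-- the Schwartz–Zippel bound over a finite field (after `H126R3.CharM`) -/
theorem sz {τ : Type} [Fintype τ] {F : Type} [Field F] [Fintype F] (p : MvPolynomial τ F)
    (hp : p ≠ 0) : (Nat.card {u : τ → F // eval u p = 0} : ℝ) * Fintype.card F ≤
      p.totalDegree * (Fintype.card F : ℝ) ^ Fintype.card τ := by
  classical
  let e := Fintype.equivFin τ
  have hp' : rename e p ≠ 0 := by
    intro h
    apply hp
    apply rename_injective e e.injective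
    rw [h, map_zero]
  have h1 := schwartz_zippel_totalDegree hp' (Finset.univ : Finset F)
  have h2 : Nat.card {u : τ → F // eval u p = 0} =
      (Finset.filter (fun f => eval f (rename e p) = 0)
        (Fintype.piFinset fun _ : Fin (Fintype.card τ) => (Finset.univ : Finset F))).card := by
    have h3 : Nat.card {u : τ → F // eval u p = 0} =
        Nat.card {f : Fin (Fintype.card τ) → F // eval f (rename e p) = 0} := by
      refine Nat.card_congr (Equiv.subtypeEquiv (Equiv.arrowCongr e (Equiv.refl F)) ?_)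
      intro u
      rw [eval_rename]
      have : (Equiv.arrowCongr e (Equiv.refl F)) u ∘ e = u := by
        funext j
        simp [Equiv.arrowCongr]
      rw [this]
    rw [h3, Nat.card_eq_fintype_card, Fintype.card_subtype]
    congr 1
  rw [← h2] at h1
  have hq : (0 : ℚ≥0) < Fintype.card F := by exact_mod_cast Fintype.card_pos
  rw [Finset.card_univ, div_le_div_iff₀ (pow_pos hq _) hq] at h1
  have h4 : ((Nat.card {u : τ → F // eval u p = 0} : ℕ) : ℝ) * Fintype.card F ≤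
      ((rename e p).totalDegree : ℝ) * (Fintype.card F : ℝ) ^ Fintype.card τ := by
    have h5 : (Nat.card {u : τ → F // eval u p = 0}) * Fintype.card F ≤
      (rename e p).totalDegree * (Fintype.card F) ^ Fintype.card τ := by exact_mod_cast h1
    exact_mod_cast h5
  refine h4.trans ?_
  gcongr
  exact totalDegree_rename_le _ _

section

variable {K : Type} [Field K] [NumberField K] {ι : Type} [Fintype ι] [DecidableEq ι]

open Classical in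
/-- the members outside the open set -/
theorem bad_count (Δ : MvPolynomial ι (𝓞 K)) (hΔ : Δ ≠ 0) : ∃ D : ℝ, 0 ≤ D ∧ ∀ (p : ℕ) [Fact p.Prime] (ψ : 𝓞 K →+* ZMod p),
    ((univ.filter fun c : ι → ZMod p => eval₂ ψ c Δ = 0).card : ℝ) ≤ D * (p : ℝ) ^ Fintype.card ι / p := by
  obtain ⟨μ, hμ⟩ := MvPolynomial.ne_zero_iff.1 hΔ
  obtain ⟨a, ha⟩ : ∃ a, a = coeff μ Δ := ⟨_, rfl⟩
  rw [← ha] at hμ
  obtain ⟨n₀, hn₀⟩ : ∃ n₀ : ℕ, n₀ = Ideal.absNorm (Ideal.span {a}) := ⟨_, rfl⟩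
  have hn₀0 : n₀ ≠ 0 := by
    rw [hn₀, Ne, Ideal.absNorm_eq_zero_iff, Ideal.span_singleton_eq_bot]
    exact hμ
  refine ⟨Δ.totalDegree + n₀, by positivity, ?_⟩
  intro p hp ψ
  have hp0 : (0 : ℝ) < p := by exact_mod_cast hp.out.pos
  rw [le_div_iff₀ hp0]
  by_cases hψ : ψ a = 0
  · have h1 : ((n₀ : ℕ) : 𝓞 K) ∈ Ideal.span {a} := by
      rw [hn₀]
      exact Ideal.absNorm_mem _
    rw [Ideal.mem_span_singleton'] at h1
    obtain ⟨b, hb⟩ := h1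
    have h2 : ((n₀ : ℕ) : ZMod p) = 0 := by
      rw [← map_natCast ψ, ← hb, map_mul, hψ, mul_zero]
    rw [ZMod.natCast_eq_zero_iff] at h2
    have h3 : p ≤ n₀ := Nat.le_of_dvd (Nat.pos_of_ne_zero hn₀0) h2
    have h4 : ((univ.filter fun c : ι → ZMod p => eval₂ ψ c Δ = 0).card : ℝ) ≤ (p : ℝ) ^ Fintype.card ι := by
      have h5 := card_filter_le (univ : Finset (ι → ZMod p)) (fun c => eval₂ ψ c Δ = 0)
      rw [card_univ, Fintype.card_fun, ZMod.card] at h5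
      exact_mod_cast h5
    have h5 : (p : ℝ) ≤ n₀ := by exact_mod_cast h3
    have h6 : (0 : ℝ) ≤ (Δ.totalDegree : ℝ) * (p : ℝ) ^ Fintype.card ι := by positivity
    calc ((univ.filter fun c : ι → ZMod p => eval₂ ψ c Δ = 0).card : ℝ) * p ≤ (p : ℝ) ^ Fintype.card ι * n₀ :=
          mul_le_mul h4 h5 hp0.le (by positivity)
      _ ≤ _ := by linarith
  · have h1 : map ψ Δ ≠ 0 := by
      intro h
      apply hψ
      rw [ha, ← coeff_map, h, coeff_zero]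
    have h2 := sz (map ψ Δ) h1
    rw [ZMod.card] at h2
    have h3 : Nat.card {u : ι → ZMod p // eval u (map ψ Δ) = 0} = (univ.filter fun c : ι → ZMod p => eval₂ ψ c Δ = 0).card := by
      rw [Nat.card_eq_fintype_card, Fintype.card_subtype]
      congr 1
      ext u
      rw [mem_filter, mem_filter, MvPolynomial.eval_map]
    rw [h3] at h2
    refine h2.trans ?_
    refine mul_le_mul_of_nonneg_right ?_ (by positivity)
    have h4 : (map ψ Δ).totalDegree ≤ Δ.totalDegree := by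
      unfold totalDegree
      exact Finset.sup_mono (MvPolynomial.support_map_subset _ _)
    have h5 : ((map ψ Δ).totalDegree : ℝ) ≤ Δ.totalDegree := by exact_mod_cast h4
    have h6 : (0 : ℝ) ≤ n₀ := Nat.cast_nonneg _
    linarith

lemma fam_hom {n d : ℕ} {J : Type} {h : J → MvPolynomial (Fin (n + 1)) (𝓞 K)} {f : ι → MvPolynomial (Fin (n + 1)) (𝓞 K)}
    (hf : Through h d f) (E : Set (MvPolynomial (Fin (n + 1)) (𝓞 K))) (hE : ∀ G ∈ E, ∃ k, G.IsHomogeneous k) :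
    ∀ G ∈ fam E f, ∃ k, G.IsHomogeneous k := by
  rintro G (rfl | ⟨F, hF, rfl⟩)
  · refine ⟨d, ?_⟩
    unfold generic
    refine IsHomogeneous.sum _ _ _ fun k _ => ?_
    exact ((hf.hom k).map _).C_mul _
  · obtain ⟨k, hk⟩ := hE F hF
    exact ⟨k, hk.map _⟩

theorem main {m : ℕ} (hN : 1 ≤ Fintype.card ι) {J : Type} {h : J → MvPolynomial (Fin (2 * m + 1 + 1)) (𝓞 K)} {e : J → ℕ} {d : ℕ}
    {f : ι → MvPolynomial (Fin (2 * m + 1 + 1)) (𝓞 K)} (hh : ∀ j, (h j).IsHomogeneous (e j)) (hd : ∀ j, e j + 1 ≤ d)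
    (hf : Through h d f) (E : Set (MvPolynomial (Fin (2 * m + 1 + 1)) (𝓞 K))) (hE : ∀ G ∈ E, ∃ k, G.IsHomogeneous k)
    (w : ℕ → ℕ) (C₀ : ℝ) (hW : ∀ (p : ℕ) [Fact p.Prime] (ψ : 𝓞 K →+* ZMod p),
      |(zeros ψ E : ℝ) - ∑ j ∈ range (2 * m + 2), w j * (p : ℝ) ^ j| ≤ C₀ * (p : ℝ) ^ ((m : ℝ) + 1 / 2))
    {κ : Type} [Fintype κ] (L : κ → Type) [∀ j, Field (L j)] [∀ j, NumberField (L j)] (C₁ : ℝ)
    (hZ : ∀ (p : ℕ) [Fact p.Prime], |∑ᶠ ψ : 𝓞 K →+* ZMod p, (zeros ψ (E ∪ Set.range h) : ℝ) -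
      (p : ℝ) ^ m * ∑ j, (Nat.card (𝓞 (L j) →+* ZMod p) : ℝ)| ≤ C₁ * (p : ℝ) ^ ((m : ℝ) - 1 / 2))
    (Δ : MvPolynomial ι (𝓞 K)) (hΔ : Δ ≠ 0) (B : ℕ) (α : Pt (MvPolynomial ι (𝓞 K)) → Fin B → ℂ)
    (hα : ∀ y, Δ ∉ y.asIdeal → (∀ i, ‖α y i‖ ≤ (qy y : ℝ) ^ m) ∧
      ∑ i, α y i = (((zeros (Ideal.Quotient.mk y.asIdeal : MvPolynomial ι (𝓞 K) →+* Res y) (fam E f) : ℝ) - tt w m (qy y) : ℝ) : ℂ)) :
    ∃ F : ℂ → ℂ, (∀ s : ℂ, (m : ℝ) + Fintype.card ι + 1 / 2 < s.re → AnalyticAt ℂ F s ∧ F s ≠ 0) ∧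
      ∀ s : ℂ, (m : ℝ) + Fintype.card ι + 1 < s.re →
        HasProd (fun y : {y : Pt (MvPolynomial ι (𝓞 K)) // Δ ∉ y.asIdeal} => ∏ i, (1 - α y.1 i * (qy y.1 : ℂ) ^ (-s))⁻¹)
          (F s * (dedekindZeta K (s - (m + Fintype.card ι : ℕ)) ^ w (m + 1) * ∏ j, dedekindZeta (L j) (s - (m + Fintype.card ι : ℕ)))) := by
  classical
  obtain ⟨N, hNd⟩ : ∃ N : ℕ, N = Fintype.card ι := ⟨_, rfl⟩
  rw [← hNd] at hN ⊢
  have hC₀ : 0 ≤ |C₀| := abs_nonneg _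
  -- constants
  obtain ⟨S, hS⟩ : ∃ S : ℝ, S = ∑ j, (Module.finrank ℚ (L j) : ℝ) := ⟨_, rfl⟩
  have hS0 : 0 ≤ S := by
    rw [hS]
    positivity
  obtain ⟨D, hD, hbad⟩ := bad_count Δ hΔ
  obtain ⟨K', hK', have_ave⟩ := ave m w |C₀| (S + |C₁|) D hC₀ (by positivity) hD
  have hRK : ∀ (K : Type) [Field K] [NumberField K] (p : Nat.Primes), R K p = Nat.card (𝓞 K →+* ZMod (p : ℕ)) := by
    intro K _ _ p
    rw [R_eq_hc]
    rfl
  obtain ⟨M, hM⟩ : ∃ M : Nat.Primes → ℝ, M = fun p => w (m + 1) * (R K p : ℝ) + ∑ j, (R (L j) p : ℝ) := ⟨_, rfl⟩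
  have hM₀ : ∀ p, |M p| ≤ w (m + 1) * Module.finrank ℚ K + S := by
    intro p
    rw [hM, hS]
    simp only
    rw [abs_of_nonneg (by positivity)]
    refine add_le_add ?_ (sum_le_sum fun j _ => ?_)
    · have : (R K p : ℝ) ≤ Module.finrank ℚ K := by exact_mod_cast R_le p
      exact mul_le_mul_of_nonneg_left this (by positivity)
    · exact_mod_cast R_le p
  have hqQ : ∀ y : Pt (MvPolynomial ι (𝓞 K)), Qc (pk y) = qy y := fun y => (qy_eq y).symm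
  have hfin : ∀ c, Finite {y : Pt (MvPolynomial ι (𝓞 K)) // pk y = c} := fun c => (card_pts c).1
  have hcard : ∀ c, (Nat.card {y : Pt (MvPolynomial ι (𝓞 K)) // pk y = c} : ℝ) ≤ (Module.finrank ℚ K : ℝ) * (Qc c : ℝ) ^ N := by
    intro c
    rw [hNd]
    exact (card_pts c).2
  obtain ⟨F, hF1, hF2⟩ := core (pk := pk) (G := fun y : Pt (MvPolynomial ι (𝓞 K)) => Δ ∉ y.asIdeal) (α := α) (m := m) (N := N)
    (Nat.cast_nonneg (Module.finrank ℚ K)) hN hfin hcard (fun y hy i => by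
      rw [hqQ]
      exact (hα y hy).1 i) M _ hM₀ ((Module.finrank ℚ K : ℝ) * K' + |C₁|) (by positivity) (by
    intro p
    have hpf : Fact (p : ℕ).Prime := ⟨p.2⟩
    have hp0 : (0 : ℝ) < (p : ℕ) := by exact_mod_cast p.2.pos
    have hp1 : (1 : ℝ) ≤ (p : ℕ) := by exact_mod_cast p.2.one_lt.le
    letI : Fintype (𝓞 K →+* ZMod (p : ℕ)) := Fintype.ofFinite _
    letI : Fintype (MvPolynomial ι (𝓞 K) →+* ZMod (p : ℕ)) := Fintype.ofFinite _
    letI := Fintype.ofFinite {y : Pt (MvPolynomial ι (𝓞 K)) // pk y = (p, 0)}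
    -- the values at the points of degree one
    have hval : ∀ (ψ : 𝓞 K →+* ZMod (p : ℕ)) (c : ι → ZMod (p : ℕ)),
        aa (fun y : Pt (MvPolynomial ι (𝓞 K)) => Δ ∉ y.asIdeal) α (ptOf (eval₂Hom ψ c)) =
          (((if eval₂ ψ c Δ = 0 then 0 else (zeros (eval₂Hom ψ c) (fam E f) : ℝ) - tt w m (p : ℕ)) : ℝ) : ℂ) := by
      intro ψ c
      have hmem : Δ ∈ (ptOf (eval₂Hom ψ c)).asIdeal ↔ eval₂ ψ c Δ = 0 := by
        rw [mem_ptOf, coe_eval₂Hom]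
      unfold aa
      by_cases h0 : eval₂ ψ c Δ = 0
      · rw [if_neg (by rw [not_not]; exact hmem.2 h0), if_pos h0]
        norm_num
      · rw [if_pos (fun h1 => h0 (hmem.1 h1)), if_neg h0, (hα _ (fun h1 => h0 (hmem.1 h1))).2,
          zeros_ptOf (eval₂Hom ψ c) (ZMod.ringHom_surjective _) (fam E f) (fam_hom hf E hE)]
        have hq : qy (ptOf (eval₂Hom ψ c)) = (p : ℕ) := by
          rw [qy_eq]
          have h2 : pk (ptOf (eval₂Hom ψ c)) = (p, 0) := by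
            rw [← ptOne_val]
            exact (ptOne p (eval₂Hom ψ c)).2
          rw [h2, zero_add, pow_one]
        rw [hq]
    have hAc : Ac pk hfin (fun y : Pt (MvPolynomial ι (𝓞 K)) => Δ ∉ y.asIdeal) α (p, 0) =
        (((∑ ψ : 𝓞 K →+* ZMod (p : ℕ), ∑ c : ι → ZMod (p : ℕ),
          (if eval₂ ψ c Δ = 0 then 0 else (zeros (eval₂Hom ψ c) (fam E f) : ℝ) - tt w m (p : ℕ)) : ℝ)) : ℂ) := by
      unfold Ac
      have e1 : ∀ (i₁ i₂ : Fintype {y : Pt (MvPolynomial ι (𝓞 K)) // pk y = (p, 0)}) (g : {y : Pt (MvPolynomial ι (𝓞 K)) // pk y = (p, 0)} → ℂ),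
          @Finset.sum _ _ _ (@Finset.univ _ i₁) g = @Finset.sum _ _ _ (@Finset.univ _ i₂) g := by
        intro i₁ i₂ g
        rw [Subsingleton.elim i₁ i₂]
      rw [e1 _ (Fintype.ofEquiv _ (ptOne p)) _]
      letI : Fintype {y : Pt (MvPolynomial ι (𝓞 K)) // pk y = (p, 0)} := Fintype.ofEquiv _ (ptOne p)
      have e2 := Fintype.sum_equiv (homEquiv (K := K) (ι := ι) (ZMod (p : ℕ))).symm
        (fun q => aa (fun y : Pt (MvPolynomial ι (𝓞 K)) => Δ ∉ y.asIdeal) α (ptOf (eval₂Hom q.1 q.2)))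
        (fun φ => aa (fun y : Pt (MvPolynomial ι (𝓞 K)) => Δ ∉ y.asIdeal) α (ptOf φ)) (fun q => rfl)
      have e3 := Fintype.sum_equiv (ptOne (K := K) (ι := ι) p) (fun φ => aa (fun y : Pt (MvPolynomial ι (𝓞 K)) => Δ ∉ y.asIdeal) α (ptOf φ))
        (fun y => aa (fun y : Pt (MvPolynomial ι (𝓞 K)) => Δ ∉ y.asIdeal) α y.1) (fun φ => by rw [ptOne_val])
      calc ∑ y : {y : Pt (MvPolynomial ι (𝓞 K)) // pk y = (p, 0)}, aa (fun y : Pt (MvPolynomial ι (𝓞 K)) => Δ ∉ y.asIdeal) α y.1 =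
          ∑ φ : MvPolynomial ι (𝓞 K) →+* ZMod (p : ℕ), aa (fun y : Pt (MvPolynomial ι (𝓞 K)) => Δ ∉ y.asIdeal) α (ptOf φ) := e3.symm
        _ = ∑ q : (𝓞 K →+* ZMod (p : ℕ)) × (ι → ZMod (p : ℕ)),
            aa (fun y : Pt (MvPolynomial ι (𝓞 K)) => Δ ∉ y.asIdeal) α (ptOf (eval₂Hom q.1 q.2)) := e2.symm
        _ = _ := by
            rw [Fintype.sum_prod_type]
            push_cast
            refine sum_congr rfl fun ψ _ => sum_congr rfl fun c _ => ?_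
            rw [hval ψ c]
            try push_cast
            try rfl
    -- the average
    have hZ1 := hZ (p : ℕ)
    rw [finsum_eq_sum_of_fintype] at hZ1
    have hhalf : ((p : ℕ) : ℝ) ^ ((m : ℝ) - 1 / 2) ≤ ((p : ℕ) : ℝ) ^ m := by
      rw [← Real.rpow_natCast]
      exact Real.rpow_le_rpow_of_exponent_le hp1 (by linarith)
    have hhalf0 : 0 < ((p : ℕ) : ℝ) ^ ((m : ℝ) - 1 / 2) := by positivity
    have hC1 : C₁ * ((p : ℕ) : ℝ) ^ ((m : ℝ) - 1 / 2) ≤ |C₁| * ((p : ℕ) : ℝ) ^ ((m : ℝ) - 1 / 2) :=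
      mul_le_mul_of_nonneg_right (le_abs_self _) hhalf0.le
    have hZψ : ∀ ψ : 𝓞 K →+* ZMod (p : ℕ), (zeros ψ (E ∪ Set.range h) : ℝ) ≤ (S + |C₁|) * ((p : ℕ) : ℝ) ^ m := by
      intro ψ
      have h1 : (zeros ψ (E ∪ Set.range h) : ℝ) ≤ ∑ ψ : 𝓞 K →+* ZMod (p : ℕ), (zeros ψ (E ∪ Set.range h) : ℝ) :=
        single_le_sum (f := fun ψ => (zeros ψ (E ∪ Set.range h) : ℝ)) (fun _ _ => Nat.cast_nonneg _) (mem_univ ψ)
      have h2 : ∑ j, (Nat.card (𝓞 (L j) →+* ZMod (p : ℕ)) : ℝ) ≤ S := by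
        rw [hS]
        exact sum_le_sum fun j _ => by exact_mod_cast (card_homs (L j) (ZMod (p : ℕ))).2
      have h3 : ((p : ℕ) : ℝ) ^ m * ∑ j, (Nat.card (𝓞 (L j) →+* ZMod (p : ℕ)) : ℝ) ≤ ((p : ℕ) : ℝ) ^ m * S :=
        mul_le_mul_of_nonneg_left h2 (by positivity)
      have h4 : |C₁| * ((p : ℕ) : ℝ) ^ ((m : ℝ) - 1 / 2) ≤ |C₁| * ((p : ℕ) : ℝ) ^ m := mul_le_mul_of_nonneg_left hhalf (abs_nonneg _)
      have h5 := (abs_le.1 hZ1).2
      linarith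
    have hψ : ∀ ψ : 𝓞 K →+* ZMod (p : ℕ),
        |∑ c : ι → ZMod (p : ℕ), (if eval₂ ψ c Δ = 0 then 0 else (zeros (eval₂Hom ψ c) (fam E f) : ℝ) - tt w m (p : ℕ)) -
          ((p : ℕ) : ℝ) ^ N * (zeros ψ (E ∪ Set.range h) + w (m + 1) * ((p : ℕ) : ℝ) ^ m)| ≤
          K' * (((p : ℕ) : ℝ) ^ N * ((p : ℕ) : ℝ) ^ ((m : ℝ) - 1 / 2)) := by
      intro ψ
      rw [hNd]
      refine have_ave ψ hh hd hf E (fun c => eval₂ ψ c Δ = 0) (hbad (p : ℕ) ψ) ((hW (p : ℕ) ψ).trans ?_) (hZψ ψ)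
      exact mul_le_mul_of_nonneg_right (le_abs_self _) (by positivity)
    have hsum : |∑ ψ : 𝓞 K →+* ZMod (p : ℕ), ∑ c : ι → ZMod (p : ℕ),
          (if eval₂ ψ c Δ = 0 then 0 else (zeros (eval₂Hom ψ c) (fam E f) : ℝ) - tt w m (p : ℕ)) -
          ((p : ℕ) : ℝ) ^ N * (∑ ψ : 𝓞 K →+* ZMod (p : ℕ), (zeros ψ (E ∪ Set.range h) : ℝ) + w (m + 1) * ((p : ℕ) : ℝ) ^ m * R K p)| ≤
          (Module.finrank ℚ K : ℝ) * (K' * (((p : ℕ) : ℝ) ^ N * ((p : ℕ) : ℝ) ^ ((m : ℝ) - 1 / 2))) := by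
      have h1 : ∑ ψ : 𝓞 K →+* ZMod (p : ℕ), ∑ c : ι → ZMod (p : ℕ),
          (if eval₂ ψ c Δ = 0 then 0 else (zeros (eval₂Hom ψ c) (fam E f) : ℝ) - tt w m (p : ℕ)) -
          ((p : ℕ) : ℝ) ^ N * (∑ ψ : 𝓞 K →+* ZMod (p : ℕ), (zeros ψ (E ∪ Set.range h) : ℝ) + w (m + 1) * ((p : ℕ) : ℝ) ^ m * R K p) =
          ∑ ψ : 𝓞 K →+* ZMod (p : ℕ), (∑ c : ι → ZMod (p : ℕ),
          (if eval₂ ψ c Δ = 0 then 0 else (zeros (eval₂Hom ψ c) (fam E f) : ℝ) - tt w m (p : ℕ)) -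
          ((p : ℕ) : ℝ) ^ N * (zeros ψ (E ∪ Set.range h) + w (m + 1) * ((p : ℕ) : ℝ) ^ m)) := by
        rw [sum_sub_distrib, ← mul_sum, sum_add_distrib, sum_const, card_univ, nsmul_eq_mul, hRK K p, Nat.card_eq_fintype_card]
        ring
      rw [h1]
      refine (abs_sum_le_sum_abs _ _).trans ((sum_le_sum fun ψ _ => hψ ψ).trans ?_)
      rw [sum_const, card_univ, nsmul_eq_mul, ← Nat.card_eq_fintype_card]
      refine mul_le_mul_of_nonneg_right ?_ (by positivity)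
      exact_mod_cast (card_homs K (ZMod (p : ℕ))).2
    have hZ2 : |((p : ℕ) : ℝ) ^ N * (∑ ψ : 𝓞 K →+* ZMod (p : ℕ), (zeros ψ (E ∪ Set.range h) : ℝ) + w (m + 1) * ((p : ℕ) : ℝ) ^ m * R K p) -
        M p * ((p : ℕ) : ℝ) ^ (N + m)| ≤ |C₁| * (((p : ℕ) : ℝ) ^ N * ((p : ℕ) : ℝ) ^ ((m : ℝ) - 1 / 2)) := by
      have h1 : ((p : ℕ) : ℝ) ^ N * (∑ ψ : 𝓞 K →+* ZMod (p : ℕ), (zeros ψ (E ∪ Set.range h) : ℝ) + w (m + 1) * ((p : ℕ) : ℝ) ^ m * R K p) -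
          M p * ((p : ℕ) : ℝ) ^ (N + m) = ((p : ℕ) : ℝ) ^ N * (∑ ψ : 𝓞 K →+* ZMod (p : ℕ), (zeros ψ (E ∪ Set.range h) : ℝ) -
            ((p : ℕ) : ℝ) ^ m * ∑ j, (Nat.card (𝓞 (L j) →+* ZMod (p : ℕ)) : ℝ)) := by
        have h2 : ∑ j, (R (L j) p : ℝ) = ∑ j, (Nat.card (𝓞 (L j) →+* ZMod (p : ℕ)) : ℝ) :=
          sum_congr rfl fun j _ => by rw [hRK (L j) p]
        rw [hM]
        simp only
        rw [h2, pow_add]
        ring
      rw [h1, abs_mul, abs_of_pos (by positivity : (0 : ℝ) < ((p : ℕ) : ℝ) ^ N)]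
      calc ((p : ℕ) : ℝ) ^ N * _ ≤ ((p : ℕ) : ℝ) ^ N * (|C₁| * ((p : ℕ) : ℝ) ^ ((m : ℝ) - 1 / 2)) :=
            mul_le_mul_of_nonneg_left (hZ1.trans hC1) (by positivity)
        _ = _ := by ring
    have hpow : ((p : ℕ) : ℝ) ^ ((N : ℝ) + m - 1 / 2) = ((p : ℕ) : ℝ) ^ N * ((p : ℕ) : ℝ) ^ ((m : ℝ) - 1 / 2) := by
      rw [← Real.rpow_natCast, ← Real.rpow_add hp0]
      congr 1
      ring
    rw [hAc, hpow]
    have hcast : (((∑ ψ : 𝓞 K →+* ZMod (p : ℕ), ∑ c : ι → ZMod (p : ℕ),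
          (if eval₂ ψ c Δ = 0 then 0 else (zeros (eval₂Hom ψ c) (fam E f) : ℝ) - tt w m (p : ℕ)) : ℝ)) : ℂ) -
          (M p : ℂ) * ((p : ℕ) : ℂ) ^ (N + m) =
        (((∑ ψ : 𝓞 K →+* ZMod (p : ℕ), ∑ c : ι → ZMod (p : ℕ),
          (if eval₂ ψ c Δ = 0 then 0 else (zeros (eval₂Hom ψ c) (fam E f) : ℝ) - tt w m (p : ℕ)) -
          M p * ((p : ℕ) : ℝ) ^ (N + m) : ℝ)) : ℂ) := by
      push_cast
      rfl
    rw [hcast, Complex.norm_real, Real.norm_eq_abs]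
    refine (abs_sub_le _ (((p : ℕ) : ℝ) ^ N * (∑ ψ : 𝓞 K →+* ZMod (p : ℕ), (zeros ψ (E ∪ Set.range h) : ℝ) + w (m + 1) * ((p : ℕ) : ℝ) ^ m * R K p)) _).trans ?_
    refine (add_le_add hsum hZ2).trans (le_of_eq ?_)
    ring)
  -- the zeta functions
  obtain ⟨H, hH1, hH2⟩ := Q45.HF.exp_primes K
  have hLex : ∀ j, ∃ H : ℂ → ℂ, (∀ s : ℂ, 1 / 2 < s.re → AnalyticAt ℂ H s ∧ H s ≠ 0) ∧
    ∀ s : ℂ, 1 < s.re →
      Complex.exp (-∑' p : Nat.Primes, (R (L j) p : ℂ) * ((p : ℕ) : ℂ) ^ (-s)) =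
        H s / dedekindZeta (L j) s := fun j => Q45.HF.exp_primes (L j)
  choose HL hHL1 hHL2 using hLex
  have hre : ∀ s : ℂ, (s - (m + N : ℕ)).re = s.re - m - N := by
    intro s
    rw [Complex.sub_re, Complex.natCast_re]
    push_cast
    ring
  refine ⟨fun s => F s * ((H (s - (m + N : ℕ)))⁻¹ ^ w (m + 1) * ∏ j, (HL j (s - (m + N : ℕ)))⁻¹), ?_, ?_⟩
  · intro s hs
    have hs' : 1 / 2 < (s - ((m + N : ℕ) : ℂ)).re := by
      rw [hre]
      linarith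
    have hshift : AnalyticAt ℂ (fun s : ℂ => s - ((m + N : ℕ) : ℂ)) s := analyticAt_id.sub analyticAt_const
    obtain ⟨a1, a2⟩ := hF1 s hs
    obtain ⟨b1, b2⟩ := hH1 _ hs'
    have b3 : AnalyticAt ℂ (fun s : ℂ => H (s - ((m + N : ℕ) : ℂ))) s :=
      AnalyticAt.comp_of_eq' (f := fun s : ℂ => s - ((m + N : ℕ) : ℂ)) b1 hshift rfl
    have b4 : AnalyticAt ℂ (fun s : ℂ => (H (s - (m + N : ℕ)))⁻¹ ^ w (m + 1)) s := (b3.inv b2).pow _
    have b5 : ∀ j, AnalyticAt ℂ (fun s : ℂ => (HL j (s - ((m + N : ℕ) : ℂ)))⁻¹) s := by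
      intro j
      obtain ⟨c1, c2⟩ := hHL1 j _ hs'
      exact (AnalyticAt.comp_of_eq' (f := fun s : ℂ => s - ((m + N : ℕ) : ℂ)) c1 hshift rfl).inv c2
    have b6 : AnalyticAt ℂ (fun s : ℂ => ∏ j, (HL j (s - ((m + N : ℕ) : ℂ)))⁻¹) s :=
      Finset.analyticAt_fun_prod _ fun j _ => b5 j
    refine ⟨a1.mul (b4.mul b6), mul_ne_zero a2 (mul_ne_zero (pow_ne_zero _ (inv_ne_zero b2)) (prod_ne_zero_iff.2 fun j _ => inv_ne_zero (hHL1 j _ hs').2))⟩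
  · intro s hs
    have hs' : 1 < (s - ((m + N : ℕ) : ℂ)).re := by
      rw [hre]
      linarith
    have h1 := hF2 s hs
    have hz : ∀ (K : Type) [Field K] [NumberField K] (H : ℂ → ℂ), H (s - (m + N : ℕ)) ≠ 0 →
        Complex.exp (-∑' p : Nat.Primes, (R K p : ℂ) * ((p : ℕ) : ℂ) ^ (-(s - (m + N : ℕ)))) =
          H (s - (m + N : ℕ)) / dedekindZeta K (s - (m + N : ℕ)) →
        Complex.exp (∑' p : Nat.Primes, (R K p : ℂ) * ((p : ℕ) : ℂ) ^ (-(s - (m + N : ℕ)))) =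
          (H (s - (m + N : ℕ)))⁻¹ * dedekindZeta K (s - (m + N : ℕ)) := by
      intro K _ _ H h0 h2
      rw [Complex.exp_neg] at h2
      have h3 := congrArg (fun z => z⁻¹) h2
      simp only [inv_inv, inv_div] at h3
      rw [h3, div_eq_mul_inv, mul_comm]
    have hsR : ∀ (K : Type) [Field K] [NumberField K], Summable fun p : Nat.Primes => (R K p : ℂ) * ((p : ℕ) : ℂ) ^ (-(s - (m + N : ℕ))) := by
      intro K _ _
      refine Summable.of_norm_bounded (((Nat.Primes.summable_rpow (r := -(s.re - m - N))).2 (by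
        rw [hre] at hs'
        linarith)).mul_left (Module.finrank ℚ K : ℝ)) fun p => ?_
      rw [norm_mul, Complex.norm_natCast_cpow_of_pos p.2.pos, Complex.norm_natCast, Complex.neg_re, hre]
      refine mul_le_mul_of_nonneg_right ?_ (by positivity)
      exact_mod_cast R_le p
    have h2 : ∑' p : Nat.Primes, (M p : ℂ) * ((p : ℕ) : ℂ) ^ (-(s - (m + N : ℕ))) =
        w (m + 1) * ∑' p : Nat.Primes, (R K p : ℂ) * ((p : ℕ) : ℂ) ^ (-(s - (m + N : ℕ))) +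
          ∑ j, ∑' p : Nat.Primes, (R (L j) p : ℂ) * ((p : ℕ) : ℂ) ^ (-(s - (m + N : ℕ))) := by
      rw [← tsum_mul_left, ← Summable.tsum_finsetSum (fun j _ => hsR (L j)),
        ← ((hsR K).mul_left _).tsum_add (summable_sum fun j _ => hsR (L j))]
      refine tsum_congr fun p => ?_
      rw [hM]
      push_cast
      rw [add_mul, sum_mul]
      ring
    have h3 : Complex.exp (∑' p : Nat.Primes, (M p : ℂ) * ((p : ℕ) : ℂ) ^ (-(s - (m + N : ℕ)))) =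
        ((H (s - (m + N : ℕ)))⁻¹ * dedekindZeta K (s - (m + N : ℕ))) ^ w (m + 1) *
          ∏ j, ((HL j (s - (m + N : ℕ)))⁻¹ * dedekindZeta (L j) (s - (m + N : ℕ))) := by
      rw [h2, Complex.exp_add, Complex.exp_sum, Complex.exp_nat_mul,
        hz K H (hH1 _ (by linarith)).2 (hH2 _ hs')]
      congr 1
      refine prod_congr rfl fun j _ => ?_
      exact hz (L j) (HL j) (hHL1 j _ (by linarith)).2 (hHL2 j _ hs')
    rw [h3] at h1
    have h4 : (fun y : {y : Pt (MvPolynomial ι (𝓞 K)) // Δ ∉ y.asIdeal} => ∏ i, (1 - α y.1 i * (qy y.1 : ℂ) ^ (-s))⁻¹) =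
        fun y : {y : Pt (MvPolynomial ι (𝓞 K)) // Δ ∉ y.asIdeal} => ∏ i, (1 - α y.1 i * (Qc (pk y.1) : ℂ) ^ (-s))⁻¹ := by
      funext y
      rw [hqQ]
    rw [h4]
    convert h1 using 1
    rw [mul_pow, prod_mul_distrib]
    ring

end

end Q282GH
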