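import Pool.Agent.Q282.GH.Cnt

/-!
# The sum over the good members modulo a prime
-/

set_option autoImplicit false
set_option linter.unusedSectionVars false

namespace Q282GH

open Finset MvPolynomial
open Q282RH (Pt ev ex em x01)

theorem good_sum {O : Type} [CommRing O] {n p : ℕ} [hp : Fact p.Prime] (ψ : O →+* ZMod p) {J ι : Type} [Fintype ι] [DecidableEq ι]
    {h : J → MvPolynomial (Fin (n + 1)) O} {e : J → ℕ} {d : ℕ} {f : ι → MvPolynomial (Fin (n + 1)) O}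
    (hh : ∀ j, (h j).IsHomogeneous (e j)) (hd : ∀ j, e j + 1 ≤ d) (hf : Through h d f) (E : Set (MvPolynomial (Fin (n + 1)) O))
    (hn : 1 ≤ n) (Bad : (ι → ZMod p) → Prop) [DecidablePred Bad] (D : ℝ) (hD0 : 0 ≤ D)
    (hBad : ((univ.filter Bad).card : ℝ) ≤ D * (p : ℝ) ^ Fintype.card ι / p) (t : ℝ) :
    |∑ c, (if Bad c then 0 else (zeros (eval₂Hom ψ c) (fam E f) : ℝ) - t) -
      (p : ℝ) ^ Fintype.card ι * (zeros ψ (E ∪ Set.range h) + ((zeros ψ E : ℝ) - zeros ψ (E ∪ Set.range h)) / p - t)| ≤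
    (p : ℝ) ^ Fintype.card ι / p * (D * |zeros ψ (E ∪ Set.range h) + ((zeros ψ E : ℝ) - zeros ψ (E ∪ Set.range h)) / p - t| +
      Real.sqrt (D * zeros ψ E)) := by
  have hp0 : (0 : ℝ) < p := by exact_mod_cast hp.out.pos
  obtain ⟨M, hM⟩ : ∃ M : ℝ, M = zeros ψ (E ∪ Set.range h) + ((zeros ψ E : ℝ) - zeros ψ (E ∪ Set.range h)) / p - t := ⟨_, rfl⟩
  obtain ⟨m1, m2⟩ := gdev_moments ψ hh hd hf E hn
  obtain ⟨q, hq⟩ : ∃ q : ℝ, q = (p : ℝ) ^ Fintype.card ι := ⟨_, rfl⟩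
  have hq0 : 0 < q := by
    rw [hq]
    positivity
  rw [← hM, ← hq]
  rw [← hq] at hBad
  have h1 : ∑ c, gdev ψ E h f c = 0 := by
    unfold ex at m1
    rw [div_eq_zero_iff] at m1
    rcases m1 with h | h
    · exact h
    · rw [← hq] at h
      exact absurd h hq0.ne'
  have h2 : ∑ c, gdev ψ E h f c ^ 2 ≤ q * (zeros ψ E / p) := by
    unfold ex at m2
    rw [← hq, div_le_iff₀ hq0] at m2
    linarith
  have h3 : ∑ c, (if Bad c then 0 else (zeros (eval₂Hom ψ c) (fam E f) : ℝ) - t) - q * M =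
      -(((univ.filter Bad).card : ℝ) * M) - ∑ c ∈ univ.filter Bad, gdev ψ E h f c := by
    have h4 : ∀ c, (if Bad c then 0 else (zeros (eval₂Hom ψ c) (fam E f) : ℝ) - t) =
        (M + gdev ψ E h f c) - (if Bad c then M + gdev ψ E h f c else 0) := by
      intro c
      rw [zeros_fam ψ hf E c, hM]
      split_ifs
      · ring
      · ring
    rw [sum_congr rfl fun c _ => h4 c, sum_sub_distrib, sum_add_distrib, h1, ← sum_filter, sum_add_distrib, sum_const, sum_const,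
      card_univ, Fintype.card_fun, ZMod.card, nsmul_eq_mul, nsmul_eq_mul]
    push_cast
    rw [← hq]
    ring
  have h4 : |∑ c ∈ univ.filter Bad, gdev ψ E h f c| ≤ q / p * Real.sqrt (D * zeros ψ E) := by
    rw [← Real.sqrt_sq_eq_abs]
    have h5 : q / p * Real.sqrt (D * zeros ψ E) = Real.sqrt ((q / p) ^ 2 * (D * zeros ψ E)) := by
      rw [Real.sqrt_mul (show (0 : ℝ) ≤ (q / p) ^ 2 by positivity) (D * zeros ψ E), Real.sqrt_sq (by positivity)]
    rw [h5]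
    refine Real.sqrt_le_sqrt ?_
    calc (∑ c ∈ univ.filter Bad, gdev ψ E h f c) ^ 2 ≤ ((univ.filter Bad).card : ℝ) * ∑ c ∈ univ.filter Bad, gdev ψ E h f c ^ 2 :=
          sq_sum_le_card_mul_sum_sq
      _ ≤ (D * q / p) * (q * (zeros ψ E / p)) := by
          refine mul_le_mul hBad ((sum_le_sum_of_subset_of_nonneg (filter_subset _ _) fun _ _ _ => sq_nonneg _).trans h2)
            (sum_nonneg fun _ _ => sq_nonneg _) (by positivity)
      _ = _ := by
          field_simp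
  rw [h3]
  calc |-(((univ.filter Bad).card : ℝ) * M) - ∑ c ∈ univ.filter Bad, gdev ψ E h f c| ≤
        |-(((univ.filter Bad).card : ℝ) * M)| + |∑ c ∈ univ.filter Bad, gdev ψ E h f c| := abs_sub _ _
    _ ≤ (D * q / p) * |M| + q / p * Real.sqrt (D * zeros ψ E) := by
        refine add_le_add ?_ h4
        rw [abs_neg, abs_mul, abs_of_nonneg (Nat.cast_nonneg _)]
        exact mul_le_mul_of_nonneg_right hBad (abs_nonneg _)
    _ = _ := by ring

/-- the traces on the cohomology outside the middle degree of a section of dimension `2 m` of a variety of dimension `2 m + 1`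
with Betti numbers `w j` in degree `2 j` and no odd cohomology -/
def tt (w : ℕ → ℕ) (m : ℕ) (q : ℝ) : ℝ := ∑ j ∈ range m, w j * q ^ j + ∑ j ∈ Ico (m + 1) (2 * m + 1), w (j + 1) * q ^ j

lemma tt_main (w : ℕ → ℕ) (m : ℕ) (q : ℝ) (hq : 0 < q) :
    (∑ j ∈ range (2 * m + 2), w j * q ^ j) / q - tt w m q - w (m + 1) * q ^ m =
      (∑ j ∈ range (m + 1), w j * q ^ j) / q - ∑ j ∈ range m, w j * q ^ j := by
  have h1 : ∑ j ∈ range (2 * m + 2), (w j : ℝ) * q ^ j = ∑ j ∈ range (m + 1), w j * q ^ j + ∑ j ∈ Ico (m + 1) (2 * m + 2), w j * q ^ j := by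
    rw [range_eq_Ico, range_eq_Ico, sum_Ico_consecutive _ (by omega) (by omega)]
  have h2 : ∑ j ∈ Ico (m + 1) (2 * m + 2), (w j : ℝ) * q ^ j = q * (w (m + 1) * q ^ m + ∑ j ∈ Ico (m + 1) (2 * m + 1), w (j + 1) * q ^ j) := by
    rw [sum_eq_sum_Ico_succ_bot (by omega), mul_add, mul_sum]
    congr 1
    · ring
    · have h3 := sum_Ico_add' (fun j => (w j : ℝ) * q ^ j) (m + 1) (2 * m + 1) 1
      rw [show m + 1 + 1 = m + 1 + 1 from rfl] at h3
      rw [← h3]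
      refine sum_congr rfl fun j _ => ?_
      ring
  unfold tt
  rw [h1, h2]
  field_simp
  ring

theorem ave (m : ℕ) (w : ℕ → ℕ) (C₀ C₁ D : ℝ) (hC₀ : 0 ≤ C₀) (hC₁ : 0 ≤ C₁) (hD : 0 ≤ D) : ∃ K : ℝ, 0 ≤ K ∧
    ∀ {O : Type} [CommRing O] {p : ℕ} [hp : Fact p.Prime] (ψ : O →+* ZMod p) {J ι : Type} [Fintype ι] [DecidableEq ι]
    {h : J → MvPolynomial (Fin (2 * m + 1 + 1)) O} {e : J → ℕ} {d : ℕ} {f : ι → MvPolynomial (Fin (2 * m + 1 + 1)) O}
    (_ : ∀ j, (h j).IsHomogeneous (e j)) (_ : ∀ j, e j + 1 ≤ d) (_ : Through h d f) (E : Set (MvPolynomial (Fin (2 * m + 1 + 1)) O))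
    (Bad : (ι → ZMod p) → Prop) [DecidablePred Bad], ((univ.filter Bad).card : ℝ) ≤ D * (p : ℝ) ^ Fintype.card ι / p →
    |(zeros ψ E : ℝ) - ∑ j ∈ range (2 * m + 2), w j * (p : ℝ) ^ j| ≤ C₀ * (p : ℝ) ^ ((m : ℝ) + 1 / 2) →
    (zeros ψ (E ∪ Set.range h) : ℝ) ≤ C₁ * (p : ℝ) ^ m →
    |∑ c, (if Bad c then 0 else (zeros (eval₂Hom ψ c) (fam E f) : ℝ) - tt w m p) -
      (p : ℝ) ^ Fintype.card ι * (zeros ψ (E ∪ Set.range h) + w (m + 1) * (p : ℝ) ^ m)| ≤
    K * ((p : ℝ) ^ Fintype.card ι * (p : ℝ) ^ ((m : ℝ) - 1 / 2)) := by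
  obtain ⟨B, hB⟩ : ∃ B : ℝ, B = ∑ j ∈ range (2 * m + 2), (w j : ℝ) := ⟨_, rfl⟩
  have hB0 : 0 ≤ B := by
    rw [hB]
    positivity
  refine ⟨D * (C₁ + B + (C₁ + C₀ + 2 * B)) + Real.sqrt (D * (C₀ + B)) + (C₁ + C₀ + 2 * B), by positivity, ?_⟩
  intro O _ p hp ψ J ι _ _ h e d f hh hd hf E Bad _ hBad hW hZ
  have hp0 : (0 : ℝ) < p := by exact_mod_cast hp.out.pos
  have hp1 : (1 : ℝ) ≤ p := by exact_mod_cast hp.out.one_lt.le
  obtain ⟨W, hWd⟩ : ∃ W : ℝ, W = zeros ψ E := ⟨_, rfl⟩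
  obtain ⟨Z, hZd⟩ : ∃ Z : ℝ, Z = zeros ψ (E ∪ Set.range h) := ⟨_, rfl⟩
  obtain ⟨q, hq⟩ : ∃ q : ℝ, q = p := ⟨_, rfl⟩
  obtain ⟨u, hu⟩ : ∃ u : ℝ, u = q ^ ((m : ℝ) - 1 / 2) := ⟨_, rfl⟩
  rw [← hq] at hp0 hp1
  have hu0 : 0 < u := by
    rw [hu]
    positivity
  have hmu : q ^ m / q ≤ u := by
    rw [hu, div_le_iff₀ hp0, ← Real.rpow_natCast]
    have h1 : q ^ ((m : ℝ) - 1 / 2) * q = q ^ ((m : ℝ) + 1 / 2) := by
      conv_lhs => rw [← Real.rpow_one q, ← Real.rpow_mul hp0.le, one_mul, ← Real.rpow_add hp0]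
      congr 1
      ring
    rw [h1]
    exact Real.rpow_le_rpow_of_exponent_le hp1 (by linarith)
  have hum : u ≤ q ^ m := by
    rw [hu, ← Real.rpow_natCast]
    exact Real.rpow_le_rpow_of_exponent_le hp1 (by linarith)
  have hplus : q ^ ((m : ℝ) + 1 / 2) = u * q := by
    rw [hu]
    conv_rhs => rw [← Real.rpow_one q, ← Real.rpow_mul hp0.le, one_mul, ← Real.rpow_add hp0]
    congr 1
    ring
  have hZ0 : 0 ≤ Z := by
    rw [hZd]
    exact Nat.cast_nonneg _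
  rw [← hWd, ← hq, hplus] at hW
  rw [← hZd, ← hq] at hZ
  -- the main term
  have hlow1 : |∑ j ∈ range (m + 1), (w j : ℝ) * q ^ j| ≤ B * q ^ m := by
    rw [abs_of_nonneg (sum_nonneg fun j _ => by positivity), hB, sum_mul]
    refine (sum_le_sum (g := fun j => (w j : ℝ) * q ^ m) fun j hj => ?_).trans
      (sum_le_sum_of_subset_of_nonneg (range_subset_range.2 (by omega)) fun j _ _ => by positivity)
    rw [mem_range] at hj
    exact mul_le_mul_of_nonneg_left (pow_le_pow_right₀ hp1 (by omega)) (by positivity)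
  have hlow2 : |∑ j ∈ range m, (w j : ℝ) * q ^ j| ≤ B * (q ^ m / q) := by
    rw [abs_of_nonneg (sum_nonneg fun j _ => by positivity), hB, sum_mul]
    refine (sum_le_sum (g := fun j => (w j : ℝ) * (q ^ m / q)) fun j hj => ?_).trans
      (sum_le_sum_of_subset_of_nonneg (range_subset_range.2 (by omega)) fun j _ _ => by positivity)
    rw [mem_range] at hj
    refine mul_le_mul_of_nonneg_left ?_ (by positivity)
    rw [le_div_iff₀ hp0, ← pow_succ]
    exact pow_le_pow_right₀ hp1 (by omega)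
  have hmain : |(Z + (W - Z) / q - tt w m q) - (Z + w (m + 1) * q ^ m)| ≤ (C₁ + C₀ + 2 * B) * u := by
    have h1 : (Z + (W - Z) / q - tt w m q) - (Z + w (m + 1) * q ^ m) =
        -(Z / q) + (W - ∑ j ∈ range (2 * m + 2), w j * q ^ j) / q + (∑ j ∈ range (m + 1), (w j : ℝ) * q ^ j) / q -
          ∑ j ∈ range m, (w j : ℝ) * q ^ j := by
      have := tt_main w m q hp0
      rw [sub_div, sub_div]
      linarith
    rw [h1]
    have a1 : |-(Z / q)| ≤ C₁ * u := by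
      rw [abs_neg, abs_of_nonneg (by positivity)]
      calc Z / q ≤ C₁ * q ^ m / q := div_le_div_of_nonneg_right hZ hp0.le
        _ = C₁ * (q ^ m / q) := by ring
        _ ≤ C₁ * u := mul_le_mul_of_nonneg_left hmu hC₁
    have a2 : |(W - ∑ j ∈ range (2 * m + 2), w j * q ^ j) / q| ≤ C₀ * u := by
      rw [abs_div, abs_of_pos hp0, div_le_iff₀ hp0]
      linarith
    have a3 : |(∑ j ∈ range (m + 1), (w j : ℝ) * q ^ j) / q| ≤ B * u := by
      rw [abs_div, abs_of_pos hp0, div_le_iff₀ hp0]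
      refine hlow1.trans ?_
      rw [mul_assoc]
      refine mul_le_mul_of_nonneg_left ?_ hB0
      rw [div_le_iff₀ hp0] at hmu
      exact hmu
    have a4 : |∑ j ∈ range m, (w j : ℝ) * q ^ j| ≤ B * u := hlow2.trans (mul_le_mul_of_nonneg_left hmu hB0)
    rw [abs_le] at a1 a2 a3 a4 ⊢
    constructor <;> linarith [a1.1, a1.2, a2.1, a2.2, a3.1, a3.2, a4.1, a4.2]
  have hwB : (w (m + 1) : ℝ) ≤ B := by
    rw [hB]
    exact single_le_sum (f := fun j => (w j : ℝ)) (fun j _ => Nat.cast_nonneg _) (mem_range.2 (by omega))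
  have habs : |Z + (W - Z) / q - tt w m q| ≤ (C₁ + B + (C₁ + C₀ + 2 * B)) * q ^ m := by
    have h1 : |Z + w (m + 1) * q ^ m| ≤ (C₁ + B) * q ^ m := by
      rw [abs_of_nonneg (by positivity)]
      have : (w (m + 1) : ℝ) * q ^ m ≤ B * q ^ m := mul_le_mul_of_nonneg_right hwB (by positivity)
      linarith
    have h2 : (C₁ + C₀ + 2 * B) * u ≤ (C₁ + C₀ + 2 * B) * q ^ m := mul_le_mul_of_nonneg_left hum (by positivity)
    rw [abs_le] at hmain h1 ⊢
    constructor <;> linarith [hmain.1, hmain.2, h1.1, h1.2]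
  have hWle : W ≤ (C₀ + B) * (u * q) ^ 2 := by
    have h1 : ∑ j ∈ range (2 * m + 2), (w j : ℝ) * q ^ j ≤ B * q ^ (2 * m + 1) := by
      rw [hB, sum_mul]
      refine sum_le_sum fun j hj => ?_
      rw [mem_range] at hj
      exact mul_le_mul_of_nonneg_left (pow_le_pow_right₀ hp1 (by omega)) (by positivity)
    have h2 : (u * q) ^ 2 = q ^ (2 * m + 1) := by
      rw [← hplus, ← Real.rpow_natCast, ← Real.rpow_mul hp0.le, ← Real.rpow_natCast]
      congr 1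
      push_cast
      ring
    have h3 : u * q ≤ (u * q) ^ 2 := by
      have h4 : 1 ≤ u * q := by
        rw [← hplus]
        exact Real.one_le_rpow hp1 (by positivity)
      nlinarith
    have h5 : C₀ * (u * q) ≤ C₀ * (u * q) ^ 2 := mul_le_mul_of_nonneg_left h3 hC₀
    rw [← h2] at h1
    rw [abs_le] at hW
    linarith [hW.2]
  have hsq : Real.sqrt (D * W) ≤ Real.sqrt (D * (C₀ + B)) * (u * q) := by
    have h1 : Real.sqrt (D * (C₀ + B)) * (u * q) = Real.sqrt (D * (C₀ + B) * (u * q) ^ 2) := by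
      rw [Real.sqrt_mul (show (0 : ℝ) ≤ D * (C₀ + B) by positivity) ((u * q) ^ 2), Real.sqrt_sq (by positivity)]
    rw [h1]
    refine Real.sqrt_le_sqrt ?_
    rw [mul_assoc]
    exact mul_le_mul_of_nonneg_left hWle hD
  have key := good_sum ψ hh hd hf E (by omega) Bad D hD hBad (tt w m p)
  rw [← hWd, ← hZd, ← hq] at key
  rw [← hZd, ← hq, ← hu]
  obtain ⟨N, hN⟩ : ∃ N : ℝ, N = q ^ Fintype.card ι := ⟨_, rfl⟩
  have hN0 : 0 < N := by
    rw [hN]
    positivity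
  rw [← hN] at key ⊢
  have k1 : N / q * (D * |Z + (W - Z) / q - tt w m q| + Real.sqrt (D * W)) ≤
      N * ((D * (C₁ + B + (C₁ + C₀ + 2 * B)) + Real.sqrt (D * (C₀ + B))) * u) := by
    rw [div_mul_eq_mul_div, mul_div_assoc]
    refine mul_le_mul_of_nonneg_left ?_ hN0.le
    rw [div_le_iff₀ hp0]
    have b1 : D * |Z + (W - Z) / q - tt w m q| ≤ D * ((C₁ + B + (C₁ + C₀ + 2 * B)) * (u * q)) := by
      refine mul_le_mul_of_nonneg_left (habs.trans ?_) hD
      refine mul_le_mul_of_nonneg_left ?_ (by positivity)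
      rw [div_le_iff₀ hp0] at hmu
      exact hmu
    linarith
  have k2 : |N * (Z + (W - Z) / q - tt w m q) - N * (Z + w (m + 1) * q ^ m)| ≤ N * ((C₁ + C₀ + 2 * B) * u) := by
    rw [← mul_sub, abs_mul, abs_of_pos hN0]
    exact mul_le_mul_of_nonneg_left hmain hN0.le
  have k3 := abs_sub_le (∑ c, (if Bad c then 0 else (zeros (eval₂Hom ψ c) (fam E f) : ℝ) - tt w m q))
    (N * (Z + (W - Z) / q - tt w m q)) (N * (Z + w (m + 1) * q ^ m))
  have k4 : (D * (C₁ + B + (C₁ + C₀ + 2 * B)) + Real.sqrt (D * (C₀ + B)) + (C₁ + C₀ + 2 * B)) * (N * u) =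
      N * ((D * (C₁ + B + (C₁ + C₀ + 2 * B)) + Real.sqrt (D * (C₀ + B))) * u) + N * ((C₁ + C₀ + 2 * B) * u) := by ring
  rw [k4]
  linarith

end Q282GH
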