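import Pool.Agent.Q282.RH.Cnt

/-!
# Point counts of the members of a linear system with coefficients in a ring, over a prime field
-/

set_option autoImplicit false
set_option linter.unusedSectionVars false

namespace Q282GH

open Finset MvPolynomial
open scoped LinearAlgebra.Projectivization
open Q282RH (Pt ev ex em x01 em_x01 em_x01_sq ex_indep ex_add ex_smul ex_one)

/-- the number of the points with values in the field `F` of the closed subscheme of projective space defined by the forms in `S` -/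
noncomputable def zeros {A F : Type} [CommRing A] [Field F] {n : ℕ} (φ : A →+* F) (S : Set (MvPolynomial (Fin (n + 1)) A)) : ℕ :=
  Nat.card {P : ℙ F (Fin (n + 1) → F) // ∀ G ∈ S, eval₂ φ P.rep G = 0}

/-- the forms `f k` have degree `d`, belong to the radical of the ideal generated by the `h j`, and every form of degree
`d` in the ideal generated by the `h j` is a combination of them -/
structure Through {O : Type} [CommRing O] {n : ℕ} {J ι : Type} [Fintype ι] (h : J → MvPolynomial (Fin (n + 1)) O) (d : ℕ)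
    (f : ι → MvPolynomial (Fin (n + 1)) O) : Prop where
  hom : ∀ k, (f k).IsHomogeneous d
  mem : ∀ k, f k ∈ (Ideal.span (Set.range h)).radical
  gen : ∀ F : MvPolynomial (Fin (n + 1)) O, F.IsHomogeneous d → F ∈ Ideal.span (Set.range h) → ∃ a : ι → O, F = ∑ k, C (a k) * f k

/-- the generic member of the linear system -/
noncomputable def generic {O : Type} [CommRing O] {n : ℕ} {ι : Type} [Fintype ι] (f : ι → MvPolynomial (Fin (n + 1)) O) :
    MvPolynomial (Fin (n + 1)) (MvPolynomial ι O) := ∑ k, C (X k) * map C (f k)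

/-- the equations of the generic member in the scheme with the equations `E` -/
noncomputable def fam {O : Type} [CommRing O] {n : ℕ} {ι : Type} [Fintype ι] (E : Set (MvPolynomial (Fin (n + 1)) O))
    (f : ι → MvPolynomial (Fin (n + 1)) O) : Set (MvPolynomial (Fin (n + 1)) (MvPolynomial ι O)) :=
  insert (generic f) ((map C : MvPolynomial (Fin (n + 1)) O →+* _) '' E)

section

variable {O : Type} [CommRing O] {n p : ℕ} [hp : Fact p.Prime] (ψ : O →+* ZMod p)

/-- the value of a form at (the chosen representative of) a point -/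
noncomputable def gval (F : MvPolynomial (Fin (n + 1)) O) (P : Pt n p) : ZMod p := eval₂ ψ P.rep F

lemma gval_mul (F G : MvPolynomial (Fin (n + 1)) O) (P : Pt n p) : gval ψ (F * G) P = gval ψ F P * gval ψ G P := eval₂_mul _ _

lemma gval_sum {κ : Type} (s : Finset κ) (F : κ → MvPolynomial (Fin (n + 1)) O) (P : Pt n p) :
    gval ψ (∑ k ∈ s, F k) P = ∑ k ∈ s, gval ψ (F k) P := eval₂_sum _ _ _ _

lemma gval_C (a : O) (P : Pt n p) : gval ψ (C a) P = ψ a := by
  unfold gval
  rw [eval₂_C]

lemma gval_int (F : MvPolynomial (Fin (n + 1)) ℤ) (P : Pt n p) : gval ψ (map (Int.castRingHom O) F) P = Q282RH.val F P := by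
  unfold gval Q282RH.val
  rw [eval₂_map]
  congr 1
  exact RingHom.ext_int _ _

/-- **Separation of pairs of points.** -/
theorem sep_pair {J ι : Type} [Fintype ι] {h : J → MvPolynomial (Fin (n + 1)) O} {e : J → ℕ} {d : ℕ}
    {f : ι → MvPolynomial (Fin (n + 1)) O} (hh : ∀ j, (h j).IsHomogeneous (e j)) (hd : ∀ j, e j + 1 ≤ d)
    (hf : Through h d f) (P Q : Pt n p) (hPQ : P ≠ Q) (hP : ∃ j, gval ψ (h j) P ≠ 0) :
    ∃ b : ι → ZMod p, ∑ k, b k * gval ψ (f k) P = 1 ∧ ∑ k, b k * gval ψ (f k) Q = 0 := by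
  classical
  obtain ⟨j, hj⟩ := hP
  obtain ⟨l, hl1, hl2, hl3⟩ := Q282RH.exists_linear P Q hPQ
  obtain ⟨i, hi⟩ : ∃ i, P.rep i ≠ 0 := by
    by_contra h0
    push Not at h0
    exact P.rep_nonzero (funext h0)
  have hcard : e j + 1 + (d - e j - 1) = d := by
    have := hd j
    omega
  obtain ⟨a, ha⟩ := hf.gen (h j * map (Int.castRingHom O) l * X i ^ (d - e j - 1)) (by
    have h1 : (map (Int.castRingHom O) l).IsHomogeneous 1 := hl1.map _
    have h2 : ((X i : MvPolynomial (Fin (n + 1)) O) ^ (d - e j - 1)).IsHomogeneous (d - e j - 1) := by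
      have := (isHomogeneous_X O i).pow (d - e j - 1)
      rw [one_mul] at this
      exact this
    have := ((hh j).mul h1).mul h2
    rw [hcard] at this
    exact this) (by
    rw [mul_assoc]
    exact Ideal.mul_mem_right _ _ (Ideal.subset_span ⟨j, rfl⟩))
  have hval : ∀ Q : Pt n p, ∑ k, ψ (a k) * gval ψ (f k) Q = gval ψ (h j) Q * Q282RH.val l Q * Q.rep i ^ (d - e j - 1) := by
    intro Q
    have h1 : gval ψ (h j * map (Int.castRingHom O) l * X i ^ (d - e j - 1)) Q = ∑ k, ψ (a k) * gval ψ (f k) Q := by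
      rw [ha, gval_sum]
      refine sum_congr rfl fun k _ => ?_
      rw [gval_mul, gval_C]
    rw [← h1, gval_mul, gval_mul, gval_int]
    congr 1
    unfold gval
    rw [eval₂_pow, eval₂_X]
  obtain ⟨u, hu⟩ : ∃ u : ZMod p, u = gval ψ (h j) P * Q282RH.val l P * P.rep i ^ (d - e j - 1) := ⟨_, rfl⟩
  have hu0 : u ≠ 0 := by
    rw [hu]
    exact mul_ne_zero (mul_ne_zero hj hl3) (pow_ne_zero _ hi)
  refine ⟨fun k => u⁻¹ * ψ (a k), ?_, ?_⟩
  · have h1 : ∑ k, u⁻¹ * ψ (a k) * gval ψ (f k) P = u⁻¹ * ∑ k, ψ (a k) * gval ψ (f k) P := by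
      rw [mul_sum]
      exact sum_congr rfl fun k _ => by ring
    rw [h1, hval, ← hu, inv_mul_cancel₀ hu0]
  · have h1 : ∑ k, u⁻¹ * ψ (a k) * gval ψ (f k) Q = u⁻¹ * ∑ k, ψ (a k) * gval ψ (f k) Q := by
      rw [mul_sum]
      exact sum_congr rfl fun k _ => by ring
    rw [h1, hval, hl2, mul_zero, zero_mul, mul_zero]

open Classical in
/-- the points outside the base locus -/
noncomputable def free (E : Set (MvPolynomial (Fin (n + 1)) O)) {J : Type} (h : J → MvPolynomial (Fin (n + 1)) O) : Finset (Pt n p) :=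
  univ.filter fun P => (∀ F ∈ E, gval ψ F P = 0) ∧ ∃ j, gval ψ (h j) P ≠ 0

open Classical in
lemma zeros_eq (S : Set (MvPolynomial (Fin (n + 1)) O)) :
    zeros ψ S = (univ.filter fun P : Pt n p => ∀ F ∈ S, gval ψ F P = 0).card := by
  unfold zeros
  rw [Nat.card_eq_fintype_card, Fintype.card_subtype]
  rfl

lemma gval_zero_of_span {J : Type} {h : J → MvPolynomial (Fin (n + 1)) O} {P : Pt n p}
    (hP : ∀ j, gval ψ (h j) P = 0) {F : MvPolynomial (Fin (n + 1)) O} (hF : F ∈ (Ideal.span (Set.range h)).radical) : gval ψ F P = 0 := by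
  have h1 : Ideal.span (Set.range h) ≤ RingHom.ker (eval₂Hom ψ P.rep) := by
    rw [Ideal.span_le]
    rintro _ ⟨j, rfl⟩
    exact hP j
  obtain ⟨e, he⟩ := hF
  have h2 : (gval ψ F P) ^ e = 0 := by
    have h3 : eval₂Hom ψ P.rep (F ^ e) = 0 := h1 he
    rw [map_pow] at h3
    exact h3
  exact eq_zero_of_pow_eq_zero h2

lemma zeros_base (E : Set (MvPolynomial (Fin (n + 1)) O)) {J : Type} (h : J → MvPolynomial (Fin (n + 1)) O) :
    zeros ψ E = zeros ψ (E ∪ Set.range h) + (free ψ E h).card := by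
  classical
  rw [zeros_eq, zeros_eq]
  have h1 : (univ.filter fun P : Pt n p => ∀ F ∈ E, gval ψ F P = 0) =
      (univ.filter fun P : Pt n p => ∀ F ∈ E ∪ Set.range h, gval ψ F P = 0) ∪ free ψ E h := by
    ext P
    unfold free
    simp only [mem_union, mem_filter, mem_univ, true_and]
    constructor
    · intro hP
      by_cases h2 : ∃ j, gval ψ (h j) P ≠ 0
      · exact Or.inr ⟨hP, h2⟩
      · push Not at h2
        refine Or.inl ?_
        rintro F (hF | ⟨j, rfl⟩)
        · exact hP F hF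
        · exact h2 j
    · rintro (hP | hP)
      · exact fun F hF => hP F (Or.inl hF)
      · exact hP.1
  rw [h1, card_union_of_disjoint]
  rw [disjoint_left]
  intro P hP hP'
  unfold free at hP'
  rw [mem_filter] at hP hP'
  obtain ⟨j, hj⟩ := hP'.2.2
  exact hj (hP.2 _ (Or.inr ⟨j, rfl⟩))

/-- the deviation of the number of points -/
noncomputable def gdev (E : Set (MvPolynomial (Fin (n + 1)) O)) {J ι : Type} [Fintype ι] (h : J → MvPolynomial (Fin (n + 1)) O)
    (f : ι → MvPolynomial (Fin (n + 1)) O) (c : ι → ZMod p) : ℝ :=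
  ∑ P ∈ free ψ E h, x01 p (ev (fun _ => 0) (fun k Q => gval ψ (f k) Q) c P)

lemma eval_map (ι : Type) (c : ι → ZMod p) (G : MvPolynomial (Fin (n + 1)) O) (P : Pt n p) :
    eval₂ (eval₂Hom ψ c) P.rep (map (C : O →+* MvPolynomial ι O) G) = gval ψ G P := by
  unfold gval
  rw [eval₂_map]
  congr 1
  refine RingHom.ext fun a => ?_
  rw [RingHom.comp_apply, coe_eval₂Hom, eval₂_C]

lemma eval_generic {ι : Type} [Fintype ι] (f : ι → MvPolynomial (Fin (n + 1)) O) (c : ι → ZMod p) (P : Pt n p) :
    eval₂ (eval₂Hom ψ c) P.rep (generic f) = ev (fun _ => 0) (fun k Q => gval ψ (f k) Q) c P := by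
  unfold generic ev
  rw [eval₂_sum, zero_add]
  refine sum_congr rfl fun k _ => ?_
  rw [eval₂_mul, eval₂_C, eval_map, coe_eval₂Hom, eval₂_X]

/-- the number of the points of a member -/
theorem zeros_fam {J ι : Type} [Fintype ι] {h : J → MvPolynomial (Fin (n + 1)) O} {d : ℕ} {f : ι → MvPolynomial (Fin (n + 1)) O}
    (hf : Through h d f) (E : Set (MvPolynomial (Fin (n + 1)) O)) (c : ι → ZMod p) :
    (zeros (eval₂Hom ψ c) (fam E f) : ℝ) = zeros ψ (E ∪ Set.range h) +
      ((zeros ψ E : ℝ) - zeros ψ (E ∪ Set.range h)) / p + gdev ψ E h f c := by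
  classical
  have h1 : zeros (eval₂Hom ψ c) (fam E f) = ((univ.filter fun P : Pt n p => ∀ F ∈ E ∪ Set.range h, gval ψ F P = 0) ∪
        (free ψ E h).filter fun P => ev (fun _ => 0) (fun k Q => gval ψ (f k) Q) c P = 0).card := by
    unfold zeros
    rw [Nat.card_eq_fintype_card, Fintype.card_subtype]
    congr 1
    ext P
    unfold free fam
    simp only [mem_union, mem_filter, mem_univ, true_and]
    rw [← eval_generic ψ f c P]
    constructor
    · intro hP
      have h3 : eval₂ (eval₂Hom ψ c) P.rep (generic f) = 0 := hP _ (Set.mem_insert _ _)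
      have h4 : ∀ F ∈ E, gval ψ F P = 0 := fun F hF => by
        rw [← eval_map ψ ι c]
        exact hP _ (Set.mem_insert_of_mem _ ⟨F, hF, rfl⟩)
      by_cases h2 : ∃ j, gval ψ (h j) P ≠ 0
      · exact Or.inr ⟨⟨h4, h2⟩, h3⟩
      · push Not at h2
        refine Or.inl ?_
        rintro F (hF | ⟨j, rfl⟩)
        · exact h4 F hF
        · exact h2 j
    · rintro (hP | hP)
      · rintro G (rfl | ⟨F, hF, rfl⟩)
        · rw [eval_generic]
          unfold ev
          rw [zero_add]
          refine sum_eq_zero fun k _ => ?_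
          show c k * gval ψ (f k) P = 0
          rw [gval_zero_of_span ψ (fun j => hP _ (Or.inr ⟨j, rfl⟩)) (hf.mem k), mul_zero]
        · rw [eval_map]
          exact hP F (Or.inl hF)
      · rintro G (rfl | ⟨F, hF, rfl⟩)
        · exact hP.2
        · rw [eval_map]
          exact hP.1.1 F hF
  have h2 : Disjoint (univ.filter fun P : Pt n p => ∀ F ∈ E ∪ Set.range h, gval ψ F P = 0)
      ((free ψ E h).filter fun P => ev (fun _ => 0) (fun k Q => gval ψ (f k) Q) c P = 0) := by
    rw [disjoint_left]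
    intro P hP hP'
    unfold free at hP'
    rw [mem_filter, mem_filter] at hP'
    rw [mem_filter] at hP
    obtain ⟨j, hj⟩ := hP'.1.2.2
    exact hj (hP.2 _ (Or.inr ⟨j, rfl⟩))
  rw [h1, card_union_of_disjoint h2, card_filter (p := fun P => ev (fun _ => 0) (fun k Q => gval ψ (f k) Q) c P = 0), ← zeros_eq]
  unfold gdev x01
  rw [sum_sub_distrib, sum_const, nsmul_eq_mul, zeros_base ψ E h]
  push_cast
  ring

lemma gdev_moments {J ι : Type} [Fintype ι] [DecidableEq ι] {h : J → MvPolynomial (Fin (n + 1)) O} {e : J → ℕ} {d : ℕ}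
    {f : ι → MvPolynomial (Fin (n + 1)) O} (hh : ∀ j, (h j).IsHomogeneous (e j)) (hd : ∀ j, e j + 1 ≤ d)
    (hf : Through h d f) (E : Set (MvPolynomial (Fin (n + 1)) O)) (hn : 1 ≤ n) :
    ex (gdev ψ E h f) = 0 ∧ ex (fun c => gdev ψ E h f c ^ 2) ≤ zeros ψ E / p := by
  classical
  have hp0 : (0 : ℝ) < p := by exact_mod_cast hp.out.pos
  -- another point
  have hne : ∀ P : Pt n p, ∃ Q : Pt n p, P ≠ Q := by
    intro P
    have : Nontrivial (Pt n p) := by
      refine ⟨Projectivization.mk (ZMod p) (Pi.single 0 1) (by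
        intro h
        have := congrFun h 0
        rw [Pi.single_eq_same] at this
        exact one_ne_zero this), Projectivization.mk (ZMod p) (Pi.single (⟨1, by omega⟩ : Fin (n + 1)) 1) (by
        intro h
        have := congrFun h ⟨1, by omega⟩
        rw [Pi.single_eq_same] at this
        exact one_ne_zero this), ?_⟩
      intro h
      rw [Projectivization.mk_eq_mk_iff'] at h
      obtain ⟨a, ha⟩ := h
      have := congrFun ha 0
      rw [Pi.smul_apply, Pi.single_eq_same, Pi.single_eq_of_ne (by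
        intro h
        have := congrArg Fin.val h
        simp at this), smul_zero] at this
      exact zero_ne_one this
    obtain ⟨Q, hQ⟩ := exists_ne P
    exact ⟨Q, hQ.symm⟩
  have hone : ∀ P ∈ free ψ E h, ex (fun c => x01 p (ev (fun _ => 0) (fun k Q => gval ψ (f k) Q) c P)) = 0 := by
    intro P hP
    unfold free at hP
    rw [mem_filter] at hP
    obtain ⟨Q, hQ⟩ := hne P
    obtain ⟨b, hb, -⟩ := sep_pair ψ hh hd hf P Q hQ hP.2.2
    have h1 := ex_indep (fun _ : Pt n p => (0 : ZMod p)) (fun k (Q : Pt n p) => gval ψ (f k) Q) P b hb (fun _ => (1 : ℝ)) (fun _ _ => rfl) (x01 p)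
    rw [em_x01, mul_zero] at h1
    simpa only [one_mul] using h1
  have hsq : ∀ P ∈ free ψ E h, ex (fun c => x01 p (ev (fun _ => 0) (fun k Q => gval ψ (f k) Q) c P) ^ 2) = 1 / p * (1 - 1 / p) := by
    intro P hP
    unfold free at hP
    rw [mem_filter] at hP
    obtain ⟨Q, hQ⟩ := hne P
    obtain ⟨b, hb, -⟩ := sep_pair ψ hh hd hf P Q hQ hP.2.2
    have h1 := ex_indep (fun _ : Pt n p => (0 : ZMod p)) (fun k (Q : Pt n p) => gval ψ (f k) Q) P b hb (fun _ => (1 : ℝ)) (fun _ _ => rfl)
      (fun u => x01 p u ^ 2)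
    rw [em_x01_sq, ex_one, one_mul] at h1
    simpa only [one_mul] using h1
  have htwo : ∀ P ∈ free ψ E h, ∀ Q ∈ free ψ E h, P ≠ Q →
      ex (fun c => x01 p (ev (fun _ => 0) (fun k Q => gval ψ (f k) Q) c P) * x01 p (ev (fun _ => 0) (fun k Q => gval ψ (f k) Q) c Q)) = 0 := by
    intro P hP Q hQ hPQ
    unfold free at hP hQ
    rw [mem_filter] at hP hQ
    obtain ⟨b, hb, hb'⟩ := sep_pair ψ hh hd hf Q P (Ne.symm hPQ) hQ.2.2
    have h1 := ex_indep (fun _ : Pt n p => (0 : ZMod p)) (fun k (Q : Pt n p) => gval ψ (f k) Q) Q b hb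
      (fun c => x01 p (ev (fun _ => 0) (fun k Q => gval ψ (f k) Q) c P)) (fun a t => by
        rw [Q282RH.ev_add, hb', mul_zero, add_zero]) (x01 p)
    rw [em_x01, mul_zero] at h1
    exact h1
  constructor
  · have h1 : ex (gdev ψ E h f) = ∑ P ∈ free ψ E h, ex (fun c => x01 p (ev (fun _ => 0) (fun k Q => gval ψ (f k) Q) c P)) := by
      unfold ex gdev
      rw [sum_comm, sum_div]
    rw [h1, sum_eq_zero hone]
  · have h1 : ex (fun c => gdev ψ E h f c ^ 2) = ∑ P ∈ free ψ E h, ∑ Q ∈ free ψ E h,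
        ex (fun c => x01 p (ev (fun _ => 0) (fun k Q => gval ψ (f k) Q) c P) * x01 p (ev (fun _ => 0) (fun k Q => gval ψ (f k) Q) c Q)) := by
      unfold ex gdev
      have h2 : ∀ c : ι → ZMod p, (∑ P ∈ free ψ E h, x01 p (ev (fun _ => 0) (fun k Q => gval ψ (f k) Q) c P)) ^ 2 =
          ∑ P ∈ free ψ E h, ∑ Q ∈ free ψ E h, x01 p (ev (fun _ => 0) (fun k Q => gval ψ (f k) Q) c P) *
            x01 p (ev (fun _ => 0) (fun k Q => gval ψ (f k) Q) c Q) := by
        intro c
        rw [sq, sum_mul_sum]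
      simp only [h2]
      rw [sum_comm, sum_div]
      refine sum_congr rfl fun P _ => ?_
      rw [sum_comm, sum_div]
    rw [h1]
    have h3 : ∀ P ∈ free ψ E h, ∑ Q ∈ free ψ E h,
        ex (fun c => x01 p (ev (fun _ => 0) (fun k Q => gval ψ (f k) Q) c P) * x01 p (ev (fun _ => 0) (fun k Q => gval ψ (f k) Q) c Q)) =
        1 / p * (1 - 1 / p) := by
      intro P hP
      rw [sum_eq_single P]
      · have := hsq P hP
        simp only [sq] at this
        exact this
      · intro Q hQ hQP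
        exact htwo P hP Q hQ (Ne.symm hQP)
      · intro h
        exact absurd hP h
    rw [sum_congr rfl h3, sum_const, nsmul_eq_mul]
    have h4 : ((free ψ E h).card : ℝ) ≤ zeros ψ E := by
      rw [zeros_base ψ E h]
      push_cast
      linarith [Nat.cast_nonneg (α := ℝ) (zeros ψ (E ∪ Set.range h))]
    have h5 : 1 / (p : ℝ) * (1 - 1 / p) ≤ 1 / p := by
      have h4 : 0 < 1 / (p : ℝ) := by positivity
      nlinarith
    have h6 : 0 ≤ 1 / (p : ℝ) * (1 - 1 / p) := by
      refine mul_nonneg (by positivity) ?_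
      rw [sub_nonneg, div_le_one hp0]
      exact_mod_cast hp.out.one_lt.le
    calc ((free ψ E h).card : ℝ) * (1 / p * (1 - 1 / p)) ≤ zeros ψ E * (1 / p) :=
          mul_le_mul h4 h5 h6 (Nat.cast_nonneg _)
      _ = _ := by ring

end

end Q282GH
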