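import Pool.Agent.TH958.An.Pts
import Pool.Agent.H126R3.SumQ
import Pool.Agent.H921R2.TatePole.Homs
import Pool.Agent.Q282.GH.Ave

/-!
# Closed points of affine spaces over rings of integers
-/

set_option autoImplicit false
set_option linter.unusedSectionVars false

namespace Q282GH

open Finset MvPolynomial NumberField
open Pool.Agent.TH958.An (Pt Res qy pk qy_eq ptOf mem_ptOf fiberEquiv card_fiber pk_ptOf pk_eq_of)
open Pool.Agent.H126R3 (Qc Qc_pos)
open scoped LinearAlgebra.Projectivization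

section

variable {K : Type} [Field K] [NumberField K]

/-- the number of the points of the ring of integers (after `Q45.HF.Num`) -/
theorem card_homs (K : Type) [Field K] [NumberField K] (F : Type) [Field F] [Finite F] :
    Finite (𝓞 K →+* F) ∧ Nat.card (𝓞 K →+* F) ≤ Module.finrank ℚ K := by
  classical
  have := Fintype.ofFinite F
  let b := RingOfIntegers.basis K
  have hlin : LinearIndependent F (fun φ : 𝓞 K →+* F => (fun x => φ x : 𝓞 K → F)) := by
    have h1 := linearIndependent_monoidHom (𝓞 K) F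
    exact h1.comp (fun φ : 𝓞 K →+* F => (φ : 𝓞 K →* F)) (fun φ ψ h => by
      ext x
      exact congrArg (fun g : 𝓞 K →* F => g x) h)
  have hinj : Function.Injective (fun φ : 𝓞 K →+* F => fun i => φ (b i)) := by
    intro φ ψ h
    ext x
    rw [← b.sum_repr x, map_sum, map_sum]
    refine sum_congr rfl fun i _ => ?_
    rw [map_zsmul, map_zsmul]
    have := congrFun h i
    simp only at this
    rw [this]
  have hfin : Finite (𝓞 K →+* F) := Finite.of_injective _ hinj
  refine ⟨hfin, ?_⟩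
  let _ : Fintype (𝓞 K →+* F) := Fintype.ofFinite _
  have hlin2 : LinearIndependent F (fun φ : 𝓞 K →+* F => fun i => φ (b i)) := by
    rw [Fintype.linearIndependent_iff] at hlin ⊢
    intro c hc
    apply hlin c
    funext x
    have h1 : ∀ i, ∑ φ : 𝓞 K →+* F, c φ * φ (b i) = 0 := by
      intro i
      have := congrFun hc i
      simpa using this
    have h2 : (∑ φ : 𝓞 K →+* F, c φ • (fun x => φ x : 𝓞 K → F)) x =
        ∑ φ : 𝓞 K →+* F, c φ * φ x := by simp
    rw [h2]
    have h3 : ∀ φ : 𝓞 K →+* F, φ x = ∑ i, (b.repr x i : F) * φ (b i) := by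
      intro φ
      conv_lhs => rw [← b.sum_repr x]
      rw [map_sum]
      refine sum_congr rfl fun i _ => ?_
      rw [map_zsmul, zsmul_eq_mul]
    simp only [h3, mul_sum]
    rw [sum_comm]
    refine sum_eq_zero fun i _ => ?_
    have h4 : ∀ φ : 𝓞 K →+* F, c φ * ((b.repr x i : F) * φ (b i)) =
        (b.repr x i : F) * (c φ * φ (b i)) := fun φ => by ring
    simp only [h4]
    rw [← mul_sum, h1, mul_zero]
  have h5 := hlin2.fintype_card_le_finrank
  rw [Module.finrank_fintype_fun_eq_card] at h5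
  rw [Nat.card_eq_fintype_card, ← RingOfIntegers.rank K, Module.finrank_eq_card_basis b]
  exact h5

instance fin_homs (F : Type) [Field F] [Finite F] : Finite (𝓞 K →+* F) := (card_homs K F).1

variable {ι : Type} [Fintype ι]

instance ftR : @Algebra.FiniteType ℤ (MvPolynomial ι (𝓞 K)) _ _ (Ring.toIntAlgebra _) := by
  have h1 : Algebra.FiniteType ℤ (𝓞 K) := inferInstance
  have h2 : Algebra.FiniteType ℤ (MvPolynomial ι (𝓞 K)) := Algebra.FiniteType.trans h1 inferInstance
  have h3 := RingHom.finiteType_algebraMap.2 h2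
  have h4 : algebraMap ℤ (MvPolynomial ι (𝓞 K)) = @algebraMap ℤ (MvPolynomial ι (𝓞 K)) _ _ (Ring.toIntAlgebra _) :=
    RingHom.ext_int _ _
  rw [h4] at h3
  exact (@RingHom.finiteType_algebraMap ℤ (MvPolynomial ι (𝓞 K)) _ _ (Ring.toIntAlgebra _)).1 h3

/-- the homomorphisms from a polynomial ring to a field -/
noncomputable def homEquiv (F : Type) [Field F] : (MvPolynomial ι (𝓞 K) →+* F) ≃ (𝓞 K →+* F) × (ι → F) where
  toFun φ := (φ.comp C, fun i => φ (X i))
  invFun q := eval₂Hom q.1 q.2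
  left_inv φ := by
    apply MvPolynomial.ringHom_ext
    · intro a
      rw [coe_eval₂Hom, eval₂_C]
      rfl
    · intro i
      rw [coe_eval₂Hom, eval₂_X]
  right_inv q := by
    refine Prod.ext ?_ ?_
    · refine RingHom.ext fun a => ?_
      show eval₂Hom q.1 q.2 (C a) = q.1 a
      rw [coe_eval₂Hom, eval₂_C]
    · funext i
      show eval₂Hom q.1 q.2 (X i) = q.2 i
      rw [coe_eval₂Hom, eval₂_X]

instance fin_homR (F : Type) [Field F] [Finite F] : Finite (MvPolynomial ι (𝓞 K) →+* F) :=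
  Finite.of_equiv _ (homEquiv F).symm

lemma card_homR (F : Type) [Field F] [Finite F] :
    Nat.card (MvPolynomial ι (𝓞 K) →+* F) ≤ Module.finrank ℚ K * Nat.card F ^ Fintype.card ι := by
  rw [Nat.card_congr (homEquiv F), Nat.card_prod, Nat.card_fun, Nat.card_eq_fintype_card (α := ι)]
  exact Nat.mul_le_mul_right _ (card_homs K F).2

/-- the number of the closed points with a given residue field -/
theorem card_pts (c : Nat.Primes × ℕ) : Finite {y : Pt (MvPolynomial ι (𝓞 K)) // pk y = c} ∧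
    (Nat.card {y : Pt (MvPolynomial ι (𝓞 K)) // pk y = c} : ℝ) ≤ Module.finrank ℚ K * (Qc c : ℝ) ^ Fintype.card ι := by
  have : Fact (c.1 : ℕ).Prime := ⟨c.1.2⟩
  have hcard : Nat.card (GaloisField (c.1 : ℕ) (c.2 + 1)) = Qc c := GaloisField.card _ _ (Nat.succ_ne_zero _)
  have hfin : Fintype (GaloisField (c.1 : ℕ) (c.2 + 1)) := Fintype.ofFinite _
  have hf : Fintype.card (GaloisField (c.1 : ℕ) (c.2 + 1)) = (c.1 : ℕ) ^ (c.2 + 1) := by
    rw [← Nat.card_eq_fintype_card]
    exact hcard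
  have hex : ∀ y : {y : Pt (MvPolynomial ι (𝓞 K)) // pk y = c}, ∃ φ : MvPolynomial ι (𝓞 K) →+* GaloisField (c.1 : ℕ) (c.2 + 1), ptOf φ = y.1 := by
    intro y
    have h1 := card_fiber y.1 (GaloisField (c.1 : ℕ) (c.2 + 1)) c.1 c.2 hf y.2
    have h2 : 0 < Nat.card {φ : MvPolynomial ι (𝓞 K) →+* GaloisField (c.1 : ℕ) (c.2 + 1) // ptOf φ = y.1} := by omega
    obtain ⟨φ⟩ := (Nat.card_pos_iff.1 h2).1
    exact ⟨φ.1, φ.2⟩
  choose g hg using hex
  have hinj : Function.Injective g := by
    intro y z h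
    apply Subtype.ext
    rw [← hg y, ← hg z, h]
  refine ⟨Finite.of_injective g hinj, ?_⟩
  have h1 := Nat.card_le_card_of_injective g hinj
  have h2 := h1.trans (card_homR (K := K) (ι := ι) (GaloisField (c.1 : ℕ) (c.2 + 1)))
  rw [hcard] at h2
  exact_mod_cast h2

/-- the closed points of degree one -/
noncomputable def ptOne (p : Nat.Primes) : (MvPolynomial ι (𝓞 K) →+* ZMod (p : ℕ)) ≃
    {y : Pt (MvPolynomial ι (𝓞 K)) // pk y = (p, 0)} := by
  have : Fact (p : ℕ).Prime := ⟨p.2⟩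
  have hf : Fintype.card (ZMod (p : ℕ)) = (p : ℕ) ^ (0 + 1) := by
    rw [ZMod.card, zero_add, pow_one]
  refine Equiv.ofBijective (fun φ => ⟨ptOf φ, ?_⟩) ⟨?_, ?_⟩
  · obtain ⟨h1, h2⟩ := pk_ptOf (ZMod (p : ℕ)) φ p 0 hf
    refine Prod.ext h1 ?_
    have h3 := Nat.le_of_dvd (by norm_num) h2
    show (pk (ptOf φ)).2 = 0
    omega
  · intro φ φ' h
    have h1 : ptOf φ = ptOf φ' := congrArg Subtype.val h
    have h2 := card_fiber (ptOf φ') (ZMod (p : ℕ)) p 0 hf (by
      obtain ⟨h1, h2⟩ := pk_ptOf (ZMod (p : ℕ)) φ' p 0 hf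
      refine Prod.ext h1 ?_
      have h3 := Nat.le_of_dvd (by norm_num) h2
      show (pk (ptOf φ')).2 = 0
      omega)
    rw [zero_add, Nat.card_eq_one_iff_unique] at h2
    have h3 := h2.1.elim (⟨φ, h1⟩ : {χ : MvPolynomial ι (𝓞 K) →+* ZMod (p : ℕ) // ptOf χ = ptOf φ'}) ⟨φ', rfl⟩
    exact congrArg Subtype.val h3
  · intro y
    have h2 := card_fiber y.1 (ZMod (p : ℕ)) p 0 hf y.2
    rw [zero_add, Nat.card_eq_one_iff_unique] at h2
    obtain ⟨φ⟩ := h2.2
    exact ⟨φ.1, Subtype.ext φ.2⟩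

lemma ptOne_val (p : Nat.Primes) [Fact (p : ℕ).Prime] (φ : MvPolynomial ι (𝓞 K) →+* ZMod (p : ℕ)) : (ptOne p φ).1 = ptOf φ := rfl

end

/-- a semilinear map of coordinates -/
def coordMap {F₁ F₂ : Type} [Field F₁] [Field F₂] (n : ℕ) (e : F₁ ≃+* F₂) : (Fin n → F₁) →ₛₗ[(e : F₁ →+* F₂)] (Fin n → F₂) where
  toFun v := fun i => e (v i)
  map_add' u v := by
    funext i
    exact map_add e _ _
  map_smul' a v := by
    funext i
    exact map_mul e _ _

lemma coordMap_inj {F₁ F₂ : Type} [Field F₁] [Field F₂] (n : ℕ) (e : F₁ ≃+* F₂) : Function.Injective (coordMap n e) := by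
  intro u v h
  funext i
  exact e.injective (congrFun h i)

/-- a form at two vectors on the same line -/
lemma eval_line {A F : Type} [CommRing A] [Field F] {n : ℕ} (φ : A →+* F) (G : MvPolynomial (Fin n) A) (k : ℕ) (hG : G.IsHomogeneous k)
    (v : Fin n → F) (a : F) : eval₂ φ (a • v) G = a ^ k * eval₂ φ v G := by
  rw [eval₂_eq', eval₂_eq', mul_sum]
  refine sum_congr rfl fun μ hμ => ?_
  have h1 : ∑ i, μ i = k := by
    have h2 := hG (mem_support_iff.1 hμ)
    rw [Finsupp.weight_apply, Finsupp.sum_fintype _ _ (by simp)] at h2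
    simpa using h2
  simp only [Pi.smul_apply, smul_eq_mul, mul_pow]
  rw [prod_mul_distrib, prod_pow_eq_pow_sum, h1]
  ring

lemma eval_coord {A F₁ F₂ : Type} [CommRing A] [Field F₁] [Field F₂] {n : ℕ} (e : F₁ ≃+* F₂) (φ : A →+* F₁) (G : MvPolynomial (Fin n) A)
    (v : Fin n → F₁) : eval₂ ((e : F₁ →+* F₂).comp φ) (coordMap n e v) G = e (eval₂ φ v G) := by
  have h1 := eval₂_comp_left (e : F₁ →+* F₂) φ v G
  rw [show (e : F₁ →+* F₂) (eval₂ φ v G) = e (eval₂ φ v G) from rfl] at h1
  rw [h1]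
  rfl

/-- the points do not depend on the model of the field -/
theorem zeros_comp {A F₁ F₂ : Type} [CommRing A] [Field F₁] [Field F₂] {n : ℕ} (e : F₁ ≃+* F₂) (φ : A →+* F₁)
    (S : Set (MvPolynomial (Fin (n + 1)) A)) (hS : ∀ G ∈ S, ∃ k, G.IsHomogeneous k) :
    zeros ((e : F₁ →+* F₂).comp φ) S = zeros φ S := by
  have key : ∀ (F₁ F₂ : Type) [Field F₁] [Field F₂] (e : F₁ ≃+* F₂) (φ : A →+* F₁) (P : ℙ F₁ (Fin (n + 1) → F₁)),
      (∀ G ∈ S, eval₂ φ P.rep G = 0) →
      ∀ G ∈ S, eval₂ ((e : F₁ →+* F₂).comp φ) (Projectivization.map (coordMap (n + 1) e) (coordMap_inj _ e) P).rep G = 0 := by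
    intro F₁ F₂ _ _ e φ P hP G hG
    obtain ⟨k, hk⟩ := hS G hG
    have h1 : Projectivization.map (coordMap (n + 1) e) (coordMap_inj _ e) P =
        Projectivization.mk F₂ (coordMap (n + 1) e P.rep) (by
          intro h
          apply P.rep_nonzero
          apply coordMap_inj (n + 1) e
          rw [h]
          funext i
          exact (map_zero e).symm) := by
      conv_lhs => rw [← P.mk_rep]
      rfl
    obtain ⟨a, ha⟩ := Projectivization.exists_smul_eq_mk_rep F₂ (coordMap (n + 1) e P.rep) (by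
          intro h
          apply P.rep_nonzero
          apply coordMap_inj (n + 1) e
          rw [h]
          funext i
          exact (map_zero e).symm)
    rw [h1, ← ha]
    show eval₂ _ ((a : F₂) • coordMap (n + 1) e P.rep) G = 0
    rw [eval_line _ _ k hk, eval_coord, hP G hG, map_zero, mul_zero]
  have hinv : ∀ (F₁ F₂ : Type) [Field F₁] [Field F₂] (e : F₁ ≃+* F₂) (P : ℙ F₁ (Fin (n + 1) → F₁)),
      Projectivization.map (coordMap (n + 1) e.symm) (coordMap_inj _ e.symm)
        (Projectivization.map (coordMap (n + 1) e) (coordMap_inj _ e) P) = P := by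
    intro F₁ F₂ _ _ e P
    induction P using Projectivization.ind with
    | h v hv =>
      rw [Projectivization.map_mk, Projectivization.map_mk]
      congr 1
      funext i
      exact e.symm_apply_apply _
  unfold zeros
  refine (Nat.card_congr ?_).symm
  refine ⟨fun P => ⟨Projectivization.map (coordMap (n + 1) e) (coordMap_inj _ e) P.1, key F₁ F₂ e φ P.1 P.2⟩,
    fun P => ⟨Projectivization.map (coordMap (n + 1) e.symm) (coordMap_inj _ e.symm) P.1, ?_⟩, ?_, ?_⟩
  · have h1 := key F₂ F₁ e.symm ((e : F₁ →+* F₂).comp φ) P.1 P.2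
    have h2 : (e.symm : F₂ →+* F₁).comp ((e : F₁ →+* F₂).comp φ) = φ := by
      refine RingHom.ext fun x => ?_
      exact e.symm_apply_apply _
    rw [h2] at h1
    exact h1
  · intro P
    exact Subtype.ext (hinv F₁ F₂ e P.1)
  · intro P
    exact Subtype.ext (hinv F₂ F₁ e.symm P.1)

/-- the fibre at the closed point below a homomorphism -/
theorem zeros_ptOf {R F : Type} [CommRing R] [Field F] [Finite F] {n : ℕ} (φ : R →+* F) (hφ : Function.Surjective φ)
    (S : Set (MvPolynomial (Fin (n + 1)) R)) (hS : ∀ G ∈ S, ∃ k, G.IsHomogeneous k) :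
    zeros (Ideal.Quotient.mk (ptOf φ).asIdeal : R →+* Res (ptOf φ)) S = zeros φ S := by
  have hl : ∀ x ∈ (ptOf φ).asIdeal, φ x = 0 := fun x hx => (mem_ptOf φ x).1 hx
  let g : Res (ptOf φ) →+* F := Ideal.Quotient.lift (ptOf φ).asIdeal φ hl
  have hg : Function.Bijective g := by
    refine ⟨g.injective, fun x => ?_⟩
    obtain ⟨r, rfl⟩ := hφ x
    exact ⟨Ideal.Quotient.mk _ r, rfl⟩
  let e : Res (ptOf φ) ≃+* F := RingEquiv.ofBijective g hg
  rw [← zeros_comp e (Ideal.Quotient.mk (ptOf φ).asIdeal : R →+* Res (ptOf φ)) S hS]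
  rfl

end Q282GH
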